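import Mathlib

/-!
# Extensions from homomorphisms of the absolute Galois group to permutation groups
-/

set_option autoImplicit false
set_option linter.unusedSectionVars false

open IntermediateField

namespace Pool.Agent.H96S.CI

section

variable {K Ω : Type} [Field K] [Field Ω] [Algebra K Ω] [IsGalois K Ω]
variable {n : ℕ} (ψ : (Ω ≃ₐ[K] Ω) →* Equiv.Perm (Fin n)) (i0 : Fin n)

/-- the stabilizer of a point -/
def St : Subgroup (Ω ≃ₐ[K] Ω) := (MulAction.stabilizer (Equiv.Perm (Fin n)) i0).comap ψ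

theorem mem_St (σ : Ω ≃ₐ[K] Ω) : σ ∈ St ψ i0 ↔ ψ σ i0 = i0 := by
  unfold St
  rw [Subgroup.mem_comap, MulAction.mem_stabilizer_iff]
  rfl

/-- the fixed field of the stabilizer of a point -/
noncomputable def FE : IntermediateField K Ω := fixedField (St ψ i0)

variable {ψ i0}

theorem FE_le {N : IntermediateField K Ω} (hN : N.fixingSubgroup ≤ ψ.ker) : FE ψ i0 ≤ N := by
  have h : N.fixingSubgroup ≤ St ψ i0 := by
    intro σ hσ
    rw [mem_St]
    have := hN hσ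
    rw [MonoidHom.mem_ker] at this
    rw [this]
    rfl
  have h2 : FE ψ i0 ≤ fixedField N.fixingSubgroup := by
    intro x hx
    unfold FE at hx
    rw [mem_fixedField_iff] at hx ⊢
    exact fun f hf => hx f (h hf)
  rwa [InfiniteGalois.fixedField_fixingSubgroup] at h2

theorem fix_FE {N : IntermediateField K Ω} [FiniteDimensional K N]
    (hN : N.fixingSubgroup ≤ ψ.ker) : (FE ψ i0).fixingSubgroup = St ψ i0 := by
  have h : N.fixingSubgroup ≤ St ψ i0 := by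
    intro σ hσ
    rw [mem_St]
    have := hN hσ
    rw [MonoidHom.mem_ker] at this
    rw [this]
    rfl
  have ho : IsOpen (St ψ i0 : Set (Ω ≃ₐ[K] Ω)) :=
    Subgroup.isOpen_mono h (fixingSubgroup_isOpen N)
  have hc : IsClosed (St ψ i0 : Set (Ω ≃ₐ[K] Ω)) := Subgroup.isClosed_of_isOpen _ ho
  exact InfiniteGalois.fixingSubgroup_fixedField ⟨St ψ i0, hc⟩

theorem orbit_eq_iff {N : IntermediateField K Ω} [FiniteDimensional K N]
    (hN : N.fixingSubgroup ≤ ψ.ker) (σ τ : Ω ≃ₐ[K] Ω) :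
    ψ σ i0 = ψ τ i0 ↔ ∀ x ∈ FE ψ i0, σ x = τ x := by
  have h1 : ψ σ i0 = ψ τ i0 ↔ τ⁻¹ * σ ∈ St ψ i0 := by
    rw [mem_St, map_mul, map_inv, Equiv.Perm.mul_apply, Equiv.Perm.inv_eq_iff_eq]
  rw [h1, ← fix_FE hN, IntermediateField.mem_fixingSubgroup_iff]
  constructor
  · intro h x hx
    have := h x hx
    have h2 : τ ((τ⁻¹ * σ) x) = τ x := by rw [this]
    rw [AlgEquiv.mul_apply] at h2
    rw [← h2]
    exact (AlgEquiv.apply_symm_apply τ (σ x)).symm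
  · intro h x hx
    show τ.symm (σ x) = x
    rw [h x hx, AlgEquiv.symm_apply_apply]

theorem finrank_FE {N : IntermediateField K Ω} [FiniteDimensional K N]
    (hN : N.fixingSubgroup ≤ ψ.ker) (ht : ∀ j, ∃ σ, ψ σ i0 = j) :
    Module.finrank K (FE ψ i0) = n := by
  rw [finrank_eq_fixingSubgroup_index, fix_FE hN]
  let _ : MulAction (Ω ≃ₐ[K] Ω) (Fin n) := MulAction.compHom (Fin n) ψ
  have h : St ψ i0 = MulAction.stabilizer (Ω ≃ₐ[K] Ω) i0 := by
    ext σ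
    rw [mem_St, MulAction.mem_stabilizer_iff]
    rfl
  rw [h, MulAction.index_stabilizer]
  have h2 : MulAction.orbit (Ω ≃ₐ[K] Ω) i0 = Set.univ := by
    rw [Set.eq_univ_iff_forall]
    intro j
    obtain ⟨σ, hσ⟩ := ht j
    exact ⟨σ, hσ⟩
  rw [h2, Set.ncard_univ, Nat.card_fin]

/-- the group of the field -/
theorem gp_FE {N : IntermediateField K Ω} [FiniteDimensional K N]
    (hN : N.fixingSubgroup ≤ ψ.ker) (ht : ∀ j, ∃ σ, ψ σ i0 = j) :
    ∃ e : (FE ψ i0 →ₐ[K] Ω) ≃ Fin n, ∀ π : Equiv.Perm (Fin n),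
      π ∈ ψ.range ↔ ∃ σ : Ω ≃ₐ[K] Ω, ∀ φ : FE ψ i0 →ₐ[K] Ω,
        e (σ.toAlgHom.comp φ) = π (e φ) := by
  have hlift : ∀ φ : FE ψ i0 →ₐ[K] Ω, ∃ σ : Ω ≃ₐ[K] Ω, ∀ x : FE ψ i0, σ x = φ x := by
    intro φ
    let ε : FE ψ i0 ≃ₐ[K] φ.fieldRange := AlgEquiv.ofInjectiveField φ
    refine ⟨ε.liftNormal Ω, fun x => ?_⟩
    exact AlgEquiv.liftNormal_commutes ε Ω x
  choose lf hlf using hlift
  let f : (FE ψ i0 →ₐ[K] Ω) → Fin n := fun φ => ψ (lf φ) i0
  have hf : ∀ (σ : Ω ≃ₐ[K] Ω) (φ : FE ψ i0 →ₐ[K] Ω), (∀ x : FE ψ i0, σ x = φ x) →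
      f φ = ψ σ i0 := by
    intro σ φ h
    show ψ (lf φ) i0 = ψ σ i0
    rw [orbit_eq_iff hN]
    intro x hx
    have h1 := hlf φ ⟨x, hx⟩
    have h2 := h ⟨x, hx⟩
    exact h1.trans h2.symm
  have hinj : Function.Injective f := by
    intro φ φ' h
    have h1 := (orbit_eq_iff hN _ _).1 h
    ext x
    have h2 := hlf φ x
    have h3 := hlf φ' x
    rw [← h2, ← h3]
    exact h1 x x.2
  have hsurj : Function.Surjective f := by
    intro j
    obtain ⟨σ, hσ⟩ := ht j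
    refine ⟨σ.toAlgHom.comp (FE ψ i0).val, ?_⟩
    rw [hf σ _ (fun x => rfl), hσ]
  refine ⟨Equiv.ofBijective f ⟨hinj, hsurj⟩, ?_⟩
  have key : ∀ (σ : Ω ≃ₐ[K] Ω) (φ : FE ψ i0 →ₐ[K] Ω),
      f (σ.toAlgHom.comp φ) = ψ σ (f φ) := by
    intro σ φ
    rw [hf (σ * lf φ) (σ.toAlgHom.comp φ) ?_]
    · rw [map_mul]; rfl
    · intro x
      rw [AlgEquiv.mul_apply, hlf φ x]
      rfl
  intro π
  constructor
  · rintro ⟨σ, rfl⟩
    exact ⟨σ, fun φ => key σ φ⟩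
  · rintro ⟨σ, hσ⟩
    refine ⟨σ, ?_⟩
    ext1 j
    obtain ⟨φ, rfl⟩ := hsurj j
    have h1 := hσ φ
    have h2 := key σ φ
    exact h2.symm.trans h1

end

end Pool.Agent.H96S.CI
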