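import Pool.Agent.H96S.CI.A

/-!
# Twisting by a quadratic character
-/

set_option autoImplicit false
set_option linter.unusedSectionVars false

open IntermediateField

namespace Pool.Agent.H96S.CI

section

variable {K Ω : Type} [Field K] [Field Ω] [Algebra K Ω] [IsGalois K Ω] [CharZero Ω]

theorem sg {s : Ω} {a : K} (hs : s ^ 2 = algebraMap K Ω a) (σ : Ω ≃ₐ[K] Ω) :
    σ s = s ∨ σ s = -s := by
  have h : (σ s) ^ 2 = s ^ 2 := by
    rw [← map_pow, hs, AlgEquiv.commutes]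
  exact sq_eq_sq_iff_eq_or_eq_neg.1 h

open Classical in
/-- the twist of `ρ` by the central involution `z` and the quadratic character of `s` -/
noncomputable def tw {G : Type} [Group G] (ρ : (Ω ≃ₐ[K] Ω) →* G) (z : G) (hz : ∀ g, z * g = g * z)
    (hz2 : z * z = 1) (s : Ω) (hs0 : s ≠ 0) {a : K} (hs : s ^ 2 = algebraMap K Ω a) :
    (Ω ≃ₐ[K] Ω) →* G where
  toFun σ := if σ s = s then ρ σ else ρ σ * z
  map_one' := by simp
  map_mul' σ τ := by
    have hne : -s ≠ s := by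
      intro h
      have h2 : (2 : Ω) * s = 0 := by linear_combination -h
      rcases mul_eq_zero.1 h2 with h3 | h3
      · exact two_ne_zero h3
      · exact hs0 h3
    rw [AlgEquiv.mul_apply, map_mul]
    rcases sg hs τ with h1 | h1 <;> rcases sg hs σ with h2 | h2
    · simp [h1, h2]
    · simp only [h1, h2, if_true, if_neg hne]
      rw [mul_assoc, mul_assoc, hz]
    · simp only [h1, map_neg, h2, if_true, if_neg hne, mul_assoc]
    · simp only [h1, map_neg, h2, neg_neg, if_true, if_neg hne]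
      rw [mul_assoc (ρ σ) z, ← mul_assoc z, hz, mul_assoc (ρ τ), hz2, mul_one]

variable {G : Type} [Group G] {ρ : (Ω ≃ₐ[K] Ω) →* G} {z : G} {hz : ∀ g, z * g = g * z}
  {hz2 : z * z = 1} {s : Ω} {hs0 : s ≠ 0} {a : K} {hs : s ^ 2 = algebraMap K Ω a}

theorem tw_pos {σ : Ω ≃ₐ[K] Ω} (h : σ s = s) : tw ρ z hz hz2 s hs0 hs σ = ρ σ := if_pos h

theorem tw_neg {σ : Ω ≃ₐ[K] Ω} (h : σ s ≠ s) : tw ρ z hz hz2 s hs0 hs σ = ρ σ * z := if_neg h

/-- the twist is surjective -/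
theorem tw_surj {L : IntermediateField K Ω} (hL : ∀ σ ∈ L.fixingSubgroup, ρ σ = 1)
    (hρ : Function.Surjective ρ) (hsL : s ∉ L) :
    Function.Surjective (tw ρ z hz hz2 s hs0 hs) := by
  have h0 : ∃ σ₀ ∈ L.fixingSubgroup, σ₀ s = -s := by
    by_contra hcon
    push Not at hcon
    apply hsL
    rw [← InfiniteGalois.fixedField_fixingSubgroup L, mem_fixedField_iff]
    intro σ hσ
    rcases sg hs σ with h | h
    · exact h
    · exact absurd h (hcon σ hσ)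
  obtain ⟨σ₀, h1, h2⟩ := h0
  intro g
  obtain ⟨σ, rfl⟩ := hρ g
  rcases sg hs σ with h | h
  · exact ⟨σ, tw_pos h⟩
  · refine ⟨σ * σ₀, ?_⟩
    rw [tw_pos, map_mul, hL σ₀ h1, mul_one]
    rw [AlgEquiv.mul_apply, h2, map_neg, h, neg_neg]

/-- equality of kernels -/
theorem tw_ker {L : IntermediateField K Ω} (hL : ∀ σ ∈ L.fixingSubgroup, ρ σ = 1) (hz1 : z ≠ 1)
    {s' : Ω} {hs0' : s' ≠ 0} {a' : K} {hs' : s' ^ 2 = algebraMap K Ω a'}
    (h : ∀ σ, tw ρ z hz hz2 s hs0 hs σ = 1 ↔ tw ρ z hz hz2 s' hs0' hs' σ = 1) : s * s' ∈ L := by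
  rw [← InfiniteGalois.fixedField_fixingSubgroup L, mem_fixedField_iff]
  intro σ hσ
  have h1 := h σ
  have h2 := hL σ hσ
  rw [map_mul]
  by_cases h3 : σ s = s
  · rw [tw_pos h3] at h1
    have h4 := h1.1 h2
    by_cases h5 : σ s' = s'
    · rw [h3, h5]
    · rw [tw_neg h5, h2, one_mul] at h4
      exact absurd h4 hz1
  · by_cases h5 : σ s' = s'
    · rw [tw_pos h5] at h1
      have h4 := h1.2 h2
      rw [tw_neg h3, h2, one_mul] at h4
      exact absurd h4 hz1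
    · rcases sg hs σ with h6 | h6
      · exact absurd h6 h3
      · rcases sg hs' σ with h7 | h7
        · exact absurd h7 h5
        · rw [h6, h7, neg_mul_neg]

/-- the elements of the group fixing `x` -/
def Sx (ρ : (Ω ≃ₐ[K] Ω) →* G) (x : Ω) : Set G := {g | ∃ σ : Ω ≃ₐ[K] Ω, ρ σ = g ∧ σ x = x}

theorem mem_Sx {L : IntermediateField K Ω} (hL : ∀ σ, σ ∈ L.fixingSubgroup ↔ ρ σ = 1) {x : Ω}
    (hx : x ∈ L) (σ : Ω ≃ₐ[K] Ω) : ρ σ ∈ Sx ρ x ↔ σ x = x := by
  constructor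
  · rintro ⟨τ, h1, h2⟩
    have h3 : τ⁻¹ * σ ∈ L.fixingSubgroup := by
      rw [hL, map_mul, map_inv, h1, inv_mul_cancel]
    have h4 : (τ⁻¹ * σ) x = x := (IntermediateField.mem_fixingSubgroup_iff _ _).1 h3 x hx
    have h5 : τ ((τ⁻¹ * σ) x) = τ x := by rw [h4]
    rw [h2] at h5
    exact (AlgEquiv.apply_symm_apply τ (σ x)).symm.trans h5
  · exact fun h => ⟨σ, rfl, h⟩

theorem Sx_inj {L : IntermediateField K Ω} (hL : ∀ σ, σ ∈ L.fixingSubgroup ↔ ρ σ = 1) {x y : Ω}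
    (hx : x ∈ L) (hy : y ∈ L) {a b : K} (hxa : x ^ 2 = algebraMap K Ω a)
    (hyb : y ^ 2 = algebraMap K Ω b) (h : Sx ρ x = Sx ρ y) :
    x * y ∈ Set.range (algebraMap K Ω) := by
  rw [InfiniteGalois.mem_range_algebraMap_iff_fixed]
  intro σ
  have h1 := mem_Sx hL hx σ
  have h2 := mem_Sx hL hy σ
  rw [h] at h1
  have h3 : σ x = x ↔ σ y = y := h1.symm.trans h2
  rw [map_mul]
  by_cases h4 : σ x = x
  · rw [h4, h3.1 h4]
  · have h5 : σ y ≠ y := fun h => h4 (h3.2 h)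
    rw [(sg hxa σ).resolve_left h4, (sg hyb σ).resolve_left h5, neg_mul_neg]

end

end Pool.Agent.H96S.CI
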