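import Pool.Agent.H96S.CI.B

/-!
# The fibres of the twisting map
-/

set_option autoImplicit false
set_option linter.unusedSectionVars false

open IntermediateField

namespace Pool.Agent.H96S.CI

section count

theorem count {ι β : Type} (Q : Finset ι) (good : ι → Prop) (E : ι → β) (T : Finset β) (M : ℕ)
    [DecidablePred good] [DecidableEq β]
    (h1 : ∀ q ∈ Q, good q → E q ∈ T)
    (h2 : ∀ q₁ ∈ Q, good q₁ → (Q.filter (fun q => good q ∧ E q = E q₁)).card ≤ M)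
    (h3 : (Q.filter (fun q => ¬ good q)).card ≤ M) : Q.card ≤ M * (T.card + 1) := by
  have h4 : (Q.filter good).card ≤ M * ((Q.filter good).image E).card := by
    apply Finset.card_le_mul_card_image
    intro b hb
    obtain ⟨q₁, hq₁, rfl⟩ := Finset.mem_image.1 hb
    rw [Finset.mem_filter] at hq₁
    refine le_trans (le_of_eq ?_) (h2 q₁ hq₁.1 hq₁.2)
    rw [Finset.filter_filter]
  have h5 : ((Q.filter good).image E).card ≤ T.card := by
    apply Finset.card_le_card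
    intro b hb
    obtain ⟨q₁, hq₁, rfl⟩ := Finset.mem_image.1 hb
    rw [Finset.mem_filter] at hq₁
    exact h1 q₁ hq₁.1 hq₁.2
  have h6 := Finset.card_filter_add_card_filter_not (s := Q) good
  have h7 : M * ((Q.filter good).image E).card ≤ M * T.card := Nat.mul_le_mul_left _ h5
  rw [← h6, mul_add, mul_one]
  omega

end count

section

variable {K Ω : Type} [Field K] [Field Ω] [Algebra K Ω] [IsGalois K Ω] [CharZero Ω]

theorem adj_eq {s s' : Ω} (hs0 : s ≠ 0) (hs0' : s' ≠ 0)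
    (h : s * s' ∈ Set.range (algebraMap K Ω)) :
    adjoin K {s} = adjoin K {s'} := by
  have key : ∀ t t' : Ω, t ≠ 0 → t * t' ∈ Set.range (algebraMap K Ω) →
      adjoin K {t'} ≤ adjoin K {t} := by
    intro t t' ht ⟨k, hk⟩
    rw [adjoin_simple_le_iff]
    have : t' = algebraMap K Ω k * t⁻¹ := by
      rw [hk]; field_simp
    rw [this]
    exact mul_mem (IntermediateField.algebraMap_mem _ k) (inv_mem (mem_adjoin_simple_self K t))
  refine le_antisymm (key s' s hs0' ?_) (key s s' hs0 h)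
  rw [mul_comm]; exact h

variable {n : ℕ} {G : Subgroup (Equiv.Perm (Fin n))} {ρ : (Ω ≃ₐ[K] Ω) →* G} {z : G}
  {hz : ∀ g, z * g = g * z} {hz2 : z * z = 1} {s : Ω} {hs0 : s ≠ 0} {a : K}
  {hs : s ^ 2 = algebraMap K Ω a} {i0 : Fin n}

/-- the twisted homomorphism to the symmetric group -/
noncomputable def ps (ρ : (Ω ≃ₐ[K] Ω) →* G) (z : G)
    (hz : ∀ g, z * g = g * z) (hz2 : z * z = 1) (s : Ω) (hs0 : s ≠ 0) {a : K}
    (hs : s ^ 2 = algebraMap K Ω a) : (Ω ≃ₐ[K] Ω) →* Equiv.Perm (Fin n) :=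
  G.subtype.comp (tw ρ z hz hz2 s hs0 hs)

theorem ps_ker {L : IntermediateField K Ω} (hL : ∀ σ, σ ∈ L.fixingSubgroup ↔ ρ σ = 1) :
    (L ⊔ adjoin K {s}).fixingSubgroup ≤ (ps ρ z hz hz2 s hs0 hs).ker := by
  intro σ hσ
  rw [MonoidHom.mem_ker]
  have h1 : ∀ x ∈ L ⊔ adjoin K {s}, σ x = x := (IntermediateField.mem_fixingSubgroup_iff _ _).1 hσ
  have h2 : σ s = s := h1 s (le_sup_right (a := L) (mem_adjoin_simple_self K s))
  have h3 : ρ σ = 1 := by
    rw [← hL, IntermediateField.mem_fixingSubgroup_iff]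
    exact fun x hx => h1 x (le_sup_left (a := L) hx)
  show ((tw ρ z hz hz2 s hs0 hs σ : G) : Equiv.Perm (Fin n)) = 1
  rw [tw_pos h2, h3]
  rfl

theorem ps_range {L : IntermediateField K Ω} (hL : ∀ σ, σ ∈ L.fixingSubgroup ↔ ρ σ = 1)
    (hρ : Function.Surjective ρ) (hsL : s ∉ L) : (ps ρ z hz hz2 s hs0 hs).range = G := by
  unfold ps
  rw [MonoidHom.range_comp, MonoidHom.range_eq_top.2 (tw_surj (fun σ hσ => (hL σ).1 hσ) hρ hsL),
    ← MonoidHom.range_eq_map, Subgroup.range_subtype]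

theorem ps_trans {L : IntermediateField K Ω} (hL : ∀ σ, σ ∈ L.fixingSubgroup ↔ ρ σ = 1)
    (hρ : Function.Surjective ρ) (hsL : s ∉ L) (hG : ∀ i j : Fin n, ∃ g ∈ G, g i = j) (i j : Fin n) :
    ∃ σ, ps ρ z hz hz2 s hs0 hs σ i = j := by
  obtain ⟨g, hg, h⟩ := hG i j
  rw [← ps_range (z := z) (hz := hz) (hz2 := hz2) (hs0 := hs0) (hs := hs) hL hρ hsL] at hg
  obtain ⟨σ, rfl⟩ := hg
  exact ⟨σ, h⟩

theorem fd_adj (hs : s ^ 2 = algebraMap K Ω a) : FiniteDimensional K (adjoin K {s}) := by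
  apply adjoin.finiteDimensional
  exact ⟨Polynomial.X ^ 2 - Polynomial.C a, Polynomial.monic_X_pow_sub_C a two_ne_zero, by
    simp [hs]⟩

theorem ps_eq {L : IntermediateField K Ω} [FiniteDimensional K L]
    (hL : ∀ σ, σ ∈ L.fixingSubgroup ↔ ρ σ = 1)
    (hρ : Function.Surjective ρ) (hG : ∀ i j : Fin n, ∃ g ∈ G, g i = j) (hz1 : z ≠ 1)
    {s' : Ω} {hs0' : s' ≠ 0} {a' : K} {hs' : s' ^ 2 = algebraMap K Ω a'} (hsL : s ∉ L)
    (hsL' : s' ∉ L)
    (h : FE (ps ρ z hz hz2 s hs0 hs) i0 = FE (ps ρ z hz hz2 s' hs0' hs') i0) : s * s' ∈ L := by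
  have := fd_adj hs
  have := fd_adj hs'
  have h1 : St (ps ρ z hz hz2 s hs0 hs) i0 = St (ps ρ z hz hz2 s' hs0' hs') i0 := by
    rw [← fix_FE (ps_ker hL), ← fix_FE (ps_ker hL), h]
  have key : ∀ (t : Ω) (ht0 : t ≠ 0) (b : K) (ht : t ^ 2 = algebraMap K Ω b), t ∉ L →
      ∀ σ, tw ρ z hz hz2 t ht0 ht σ = 1 ↔ ∀ τ, τ⁻¹ * σ * τ ∈ St (ps ρ z hz hz2 t ht0 ht) i0 := by
    intro t ht0 b ht htL σ
    constructor
    · intro h2 τ
      have h3 : tw ρ z hz hz2 t ht0 ht (τ⁻¹ * σ * τ) = 1 := by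
        rw [map_mul, map_mul, h2, mul_one, ← map_mul, inv_mul_cancel, map_one]
      rw [mem_St]
      show ((tw ρ z hz hz2 t ht0 ht (τ⁻¹ * σ * τ) : G) : Equiv.Perm (Fin n)) i0 = i0
      rw [h3]
      rfl
    · intro h2
      apply Subtype.ext
      ext1 j
      obtain ⟨τ, hτ⟩ := ps_trans (z := z) (hz := hz) (hz2 := hz2) (hs0 := ht0) (hs := ht) hL hρ htL
        hG i0 j
      have h3 := h2 τ
      rw [mem_St, map_mul, map_mul, map_inv, Equiv.Perm.mul_apply, Equiv.Perm.mul_apply, hτ,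
        Equiv.Perm.inv_eq_iff_eq, hτ] at h3
      exact h3
  apply tw_ker (fun σ hσ => (hL σ).1 hσ) hz1 (hz := hz) (hz2 := hz2) (hs0 := hs0) (hs := hs)
    (hs0' := hs0') (hs' := hs')
  intro σ
  rw [key s hs0 a hs hsL, key s' hs0' a' hs' hsL', h1]

theorem main_count {L : IntermediateField K Ω} [FiniteDimensional K L]
    (hL : ∀ σ, σ ∈ L.fixingSubgroup ↔ ρ σ = 1)
    (hρ : Function.Surjective ρ) (hG : ∀ i j : Fin n, ∃ g ∈ G, g i = j) (hz1 : z ≠ 1)
    (i0 : Fin n) (Q : Finset (IntermediateField K Ω)) (s : IntermediateField K Ω → Ω)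
    (a : IntermediateField K Ω → K) (hs0 : ∀ q, s q ≠ 0)
    (hs : ∀ q, s q ^ 2 = algebraMap K Ω (a q)) (hq : ∀ q ∈ Q, q = adjoin K {s q})
    (T : Finset (IntermediateField K Ω))
    (hT : ∀ q ∈ Q, s q ∉ L → FE (ps ρ z hz hz2 (s q) (hs0 q) (hs q)) i0 ∈ T) :
    Q.card ≤ 2 ^ Nat.card G * (T.card + 1) := by
  classical
  have : Fintype G := Fintype.ofFinite G
  have hcard : (Finset.univ : Finset (Set G)).card = 2 ^ Nat.card G := by
    rw [Finset.card_univ, Fintype.card_set, Nat.card_eq_fintype_card]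
  have hfib : ∀ (t : Ω) (b : K), t ^ 2 = algebraMap K Ω b → t ≠ 0 →
      ∀ R : Finset (IntermediateField K Ω), (∀ q ∈ R, q ∈ Q ∧ t * s q ∈ L) →
      R.card ≤ 2 ^ Nat.card G := by
    intro t b ht ht0 R hR
    rw [← hcard]
    refine Finset.card_le_card_of_injOn (fun q => Sx ρ (t * s q)) (fun q _ => Finset.mem_univ _) ?_
    intro q hq1 q' hq2 h
    have hb0 : b ≠ 0 := by
      rintro rfl
      rw [map_zero] at ht
      exact ht0 (pow_eq_zero_iff two_ne_zero |>.1 ht)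
    have h1 : (t * s q) ^ 2 = algebraMap K Ω (b * a q) := by
      rw [mul_pow, ht, hs, map_mul]
    have h2 : (t * s q') ^ 2 = algebraMap K Ω (b * a q') := by
      rw [mul_pow, ht, hs, map_mul]
    obtain ⟨c, hc⟩ := Sx_inj hL (hR q hq1).2 (hR q' hq2).2 h1 h2 h
    have h3 : s q * s q' ∈ Set.range (algebraMap K Ω) := by
      refine ⟨c / b, ?_⟩
      rw [map_div₀, hc, ← ht]
      field_simp
    rw [hq q (hR q hq1).1, hq q' (hR q' hq2).1]
    exact adj_eq (hs0 q) (hs0 q') h3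
  refine count Q (fun q => s q ∉ L) (fun q => FE (ps ρ z hz hz2 (s q) (hs0 q) (hs q)) i0) T
    (2 ^ Nat.card G) hT ?_ ?_
  · intro q₁ hq₁ hg₁
    refine hfib (s q₁) (a q₁) (hs q₁) (hs0 q₁) _ ?_
    intro q hq'
    rw [Finset.mem_filter] at hq'
    exact ⟨hq'.1, ps_eq (hz := hz) (hz2 := hz2) hL hρ hG hz1 hg₁ hq'.2.1 hq'.2.2.symm⟩
  · refine hfib 1 1 (by simp) one_ne_zero _ ?_
    intro q hq'
    rw [Finset.mem_filter, not_not] at hq'
    rw [one_mul]
    exact hq'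

end

end Pool.Agent.H96S.CI
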