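import Pool.Agent.H96S.CI.C
import Pool.Agent.TH444.ML.Done

/-!
# The discriminant of the compositum with a quadratic extension
-/

set_option autoImplicit false
set_option linter.unusedSectionVars false

open NumberField IntermediateField Pool.Agent.TH444.ML

namespace Pool.Agent.H96S.CI

section abstract

/-- the norm of the squarefree part, from the discriminant of the quadratic extension -/
theorem low (M : Type) [Field M] [NumberField M] (k : Ideal (𝓞 M) → 𝓞 M → ℕ) (hk : IsK M k)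
    (L : Type) [Field L] [NumberField L] [Algebra M L] (s : L) (α : 𝓞 M)
    (𝔡 𝔠 : Ideal (𝓞 M)) (h2 : Module.finrank M L = 2) (hs : s ^ 2 = algebraMap M L (α : M))
    (hsM : ∀ x : M, algebraMap M L x ≠ s) (hα : α ≠ 0) (hd : Squarefree 𝔡)
    (h : Ideal.span {α} = 𝔡 * 𝔠 ^ 2) (Y : ℝ)
    (hY : ((|discr L| : ℤ) : ℝ) ≤ Y * ((discr M : ℤ) : ℝ) ^ 2) :
    (Ideal.absNorm 𝔡 : ℝ) ≤ 4 ^ Module.finrank ℚ M * Y := by
  have hc : 𝔠 ≠ ⊥ := by
    rintro rfl
    rw [← Ideal.zero_eq_bot, zero_pow two_ne_zero, mul_zero, Ideal.zero_eq_bot,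
      Ideal.span_singleton_eq_bot] at h
    exact hα h
  have h3 := hk.disc L s α 𝔡 𝔠 h2 hs hsM hα hd h
  have h4 := hk.le 𝔠 α hc
  have h5 : ((discr L).natAbs : ℝ) = ((|discr L| : ℤ) : ℝ) := by
    rw [Nat.cast_natAbs]
  have h6 : (((discr M).natAbs : ℝ)) ^ 2 = ((discr M : ℤ) : ℝ) ^ 2 := by
    rw [Nat.cast_natAbs, Int.cast_abs, sq_abs]
  have h7 : (0 : ℝ) < ((discr M : ℤ) : ℝ) ^ 2 := by
    have : ((discr M : ℤ) : ℝ) ≠ 0 := by exact_mod_cast discr_ne_zero M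
    positivity
  have h8 : ((discr L).natAbs : ℝ) * (k 𝔠 α : ℝ) ^ 2 =
      4 ^ Module.finrank ℚ M * ((discr M : ℤ) : ℝ) ^ 2 * Ideal.absNorm 𝔡 := by
    rw [← h6]; exact_mod_cast h3
  have h9 : (k 𝔠 α : ℝ) ≤ 4 ^ Module.finrank ℚ M := by exact_mod_cast h4
  have h10 : (k 𝔠 α : ℝ) ^ 2 ≤ (4 ^ Module.finrank ℚ M) ^ 2 :=
    pow_le_pow_left₀ (by positivity) h9 2
  have hP : (0 : ℝ) < 4 ^ Module.finrank ℚ M := by positivity
  rw [← h5] at hY
  have hY0 : 0 ≤ Y * ((discr M : ℤ) : ℝ) ^ 2 := le_trans (by positivity) hY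
  have h11 : ((discr L).natAbs : ℝ) * (k 𝔠 α : ℝ) ^ 2 ≤
      (Y * ((discr M : ℤ) : ℝ) ^ 2) * (4 ^ Module.finrank ℚ M) ^ 2 :=
    mul_le_mul hY h10 (by positivity) hY0
  rw [h8] at h11
  have h12 : (4 ^ Module.finrank ℚ M * ((discr M : ℤ) : ℝ) ^ 2) * (Ideal.absNorm 𝔡 : ℝ) ≤
      (4 ^ Module.finrank ℚ M * ((discr M : ℤ) : ℝ) ^ 2) * (4 ^ Module.finrank ℚ M * Y) := by
    calc _ ≤ _ := h11
      _ = _ := by ring
  exact le_of_mul_le_mul_left h12 (by positivity)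

/-- the discriminant of a quadratic extension, from any decomposition -/
theorem upp (M : Type) [Field M] [NumberField M] (k : Ideal (𝓞 M) → 𝓞 M → ℕ) (hk : IsK M k)
    (L : Type) [Field L] [NumberField L] [Algebra M L] (s : L) (α : 𝓞 M)
    (𝔞 𝔟 : Ideal (𝓞 M)) (h2 : Module.finrank M L = 2) (hs : s ^ 2 = algebraMap M L (α : M))
    (hsM : ∀ x : M, algebraMap M L x ≠ s) (hα : α ≠ 0)
    (h : Ideal.span {α} = 𝔞 * 𝔟 ^ 2) :
    (discr L).natAbs ≤ 4 ^ Module.finrank ℚ M * (discr M).natAbs ^ 2 * Ideal.absNorm 𝔞 := by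
  have hne : Ideal.span {α} ≠ ⊥ := by
    rw [Ne, Ideal.span_singleton_eq_bot]; exact hα
  have ha : 𝔞 ≠ ⊥ := by
    rintro rfl
    rw [← Ideal.zero_eq_bot, zero_mul] at h
    exact hne h
  have hb : 𝔟 ≠ ⊥ := by
    rintro rfl
    rw [← Ideal.zero_eq_bot, zero_pow two_ne_zero, mul_zero] at h
    exact hne h
  obtain ⟨d, f, hd, hdf⟩ := Pool.Agent.TH914.J3087.exists_sqf 𝔞 ha
  have hf : f ≠ ⊥ := by
    rintro rfl
    rw [← Ideal.zero_eq_bot, zero_pow two_ne_zero, mul_zero] at hdf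
    exact ha hdf
  have hfb : f * 𝔟 ≠ ⊥ := mul_ne_zero hf hb
  have h' : Ideal.span {α} = d * (f * 𝔟) ^ 2 := by
    rw [h, hdf]; ring
  have h3 := hk.disc L s α d (f * 𝔟) h2 hs hsM hα hd h'
  have h4 := hk.pos (f * 𝔟) α hfb
  have h5 : Ideal.absNorm d ≤ Ideal.absNorm 𝔞 := by
    rw [hdf, map_mul, map_pow]
    have : 0 < Ideal.absNorm f := by
      rw [Nat.pos_iff_ne_zero, Ne, Ideal.absNorm_eq_zero_iff]
      exact hf
    exact Nat.le_mul_of_pos_right _ (by positivity)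
  calc (discr L).natAbs ≤ (discr L).natAbs * (k (f * 𝔟) α) ^ 2 :=
        Nat.le_mul_of_pos_right _ (by positivity)
    _ = _ := h3
    _ ≤ _ := Nat.mul_le_mul_left _ h5

/-- extension of a decomposition -/
theorem ext_dec (K L : Type) [Field K] [NumberField K] [Field L] [NumberField L] [Algebra K L]
    (α : 𝓞 K) (𝔡 𝔠 : Ideal (𝓞 K)) (h : Ideal.span {α} = 𝔡 * 𝔠 ^ 2) :
    Ideal.span {algebraMap (𝓞 K) (𝓞 L) α} =
      𝔡.map (algebraMap (𝓞 K) (𝓞 L)) * (𝔠.map (algebraMap (𝓞 K) (𝓞 L))) ^ 2 := by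
  rw [← Ideal.map_pow, ← Ideal.map_mul, ← h, Ideal.map_span, Set.image_singleton]

theorem norm_map (K L : Type) [Field K] [NumberField K] [Field L] [NumberField L] [Algebra K L]
    (𝔡 : Ideal (𝓞 K)) : Ideal.absNorm (𝔡.map (algebraMap (𝓞 K) (𝓞 L))) =
      Ideal.absNorm 𝔡 ^ Module.finrank K L := by
  rw [Ideal.absNorm_algebraMap, ← IsFractionRing.finrank_eq (𝓞 K) K (𝓞 L) L]

/-- tower bound -/
theorem tower_le (K L : Type) [Field K] [NumberField K] [Field L] [NumberField L] [Algebra K L] :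
    (discr K).natAbs ^ Module.finrank K L ≤ (discr L).natAbs := by
  rw [natAbs_discr_eq_absNorm_differentIdeal_mul_natAbs_discr_pow K (𝓞 K) L (𝓞 L)]
  apply Nat.le_mul_of_pos_left
  rw [Nat.pos_iff_ne_zero]
  intro h0
  have h1 := natAbs_discr_eq_absNorm_differentIdeal_mul_natAbs_discr_pow K (𝓞 K) L (𝓞 L)
  rw [h0, zero_mul, Int.natAbs_eq_zero] at h1
  exact discr_ne_zero L h1

end abstract

end Pool.Agent.H96S.CI
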