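import Pool.Agent.H96S.CI.D

/-!
# The discriminants of the twisted extensions
-/

set_option autoImplicit false
set_option linter.unusedSectionVars false

open NumberField IntermediateField Pool.Agent.TH444.ML

namespace Pool.Agent.H96S.CI

section

variable {K Ω : Type} [Field K] [NumberField K] [Field Ω] [Algebra K Ω] [CharZero Ω]

theorem disc_N (L : IntermediateField K Ω) [FiniteDimensional K L] [NumberField L]
    (k : Ideal (𝓞 K) → 𝓞 K → ℕ) (hk : IsK K k) (k' : Ideal (𝓞 L) → 𝓞 L → ℕ) (hk' : IsK L k')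
    (α : 𝓞 K) (𝔠 : Ideal (𝓞 K)) (s : Ω) (Y : ℝ) (hS : Sqf K 𝔠 α)
    (hs : s ^ 2 = algebraMap K Ω (α : K)) (hsL : s ∉ L)
    (h2 : Module.finrank K (adjoin K {s}) = 2)
    (hQ : adjoin K {s} ∈ QS K Ω Y) (hN : NumberField (adjoin L {s})) :
    ((discr (adjoin L {s})).natAbs : ℝ) ≤
      4 ^ Module.finrank ℚ L * dsc L ^ 2 * (4 ^ Module.finrank ℚ K * Y) ^ Module.finrank K L := by
  obtain ⟨hα, 𝔡, hd, h⟩ := hS
  obtain ⟨-, hNq, hY⟩ := hQ
  have hsK : ∀ x : K, algebraMap K (adjoin K {s}) x ≠ ⟨s, mem_adjoin_simple_self K s⟩ := by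
    intro x hx
    apply hsL
    have : algebraMap K Ω x = s := congrArg Subtype.val hx
    rw [← this]
    exact IntermediateField.algebraMap_mem L x
  have h3 : (Ideal.absNorm 𝔡 : ℝ) ≤ 4 ^ Module.finrank ℚ K * Y := by
    refine low K k hk (adjoin K {s}) ⟨s, mem_adjoin_simple_self K s⟩ α 𝔡 𝔠 h2 ?_ hsK hα hd h Y hY
    apply Subtype.ext
    exact hs
  have hsL' : ∀ x : L, algebraMap L (adjoin L {s}) x ≠ ⟨s, mem_adjoin_simple_self L s⟩ := by
    intro x hx
    apply hsL
    have : algebraMap L Ω x = s := congrArg Subtype.val hx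
    rw [← this]
    exact x.2
  have hs' : s ^ 2 = algebraMap L Ω (algebraMap K L (α : K)) := by
    rw [hs]; rfl
  have h2' : Module.finrank L (adjoin L {s}) = 2 := by
    refine Pool.Agent.TH914.J3087.finrank_two hs' ?_
    intro x hx
    apply hsL
    rw [← hx]
    exact x.2
  have hα' : algebraMap (𝓞 K) (𝓞 L) α ≠ 0 := by
    rw [Ne, FaithfulSMul.algebraMap_eq_zero_iff]
    exact hα
  have h4 := upp L k' hk' (adjoin L {s}) ⟨s, mem_adjoin_simple_self L s⟩
    (algebraMap (𝓞 K) (𝓞 L) α) _ _ h2' (by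
      apply Subtype.ext
      exact hs') hsL' hα' (ext_dec K L α 𝔡 𝔠 h)
  rw [norm_map] at h4
  have h5 : ((discr (adjoin L {s})).natAbs : ℝ) ≤ 4 ^ Module.finrank ℚ L *
      ((discr L).natAbs : ℝ) ^ 2 * (Ideal.absNorm 𝔡 : ℝ) ^ Module.finrank K L := by
    exact_mod_cast h4
  have h6 : ((discr L).natAbs : ℝ) = dsc L := by
    rw [dsc_eq L, Nat.cast_natAbs]
  rw [h6] at h5
  refine h5.trans ?_
  have h7 : (Ideal.absNorm 𝔡 : ℝ) ^ Module.finrank K L ≤
      (4 ^ Module.finrank ℚ K * Y) ^ Module.finrank K L :=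
    pow_le_pow_left₀ (by positivity) h3 _
  exact mul_le_mul_of_nonneg_left h7 (by positivity)

theorem disc_E (L : IntermediateField K Ω) [FiniteDimensional K L] [NumberField L]
    (k : Ideal (𝓞 K) → 𝓞 K → ℕ) (hk : IsK K k) (k' : Ideal (𝓞 L) → 𝓞 L → ℕ) (hk' : IsK L k')
    (α : 𝓞 K) (𝔠 : Ideal (𝓞 K)) (s : Ω) (Y : ℝ) (hS : Sqf K 𝔠 α)
    (hs : s ^ 2 = algebraMap K Ω (α : K)) (hsL : s ∉ L)
    (h2 : Module.finrank K (adjoin K {s}) = 2)
    (hQ : adjoin K {s} ∈ QS K Ω Y) (E : IntermediateField K Ω) (hE : E ≤ L ⊔ adjoin K {s})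
    (hEf : FiniteDimensional K E) :
    ∃ m : ℕ, Module.finrank K E * m = 2 * Module.finrank K L ∧ dsc E ^ m ≤
      4 ^ Module.finrank ℚ L * dsc L ^ 2 * (4 ^ Module.finrank ℚ K * Y) ^ Module.finrank K L := by
  have hs' : s ^ 2 = algebraMap L Ω (algebraMap K L (α : K)) := by
    rw [hs]; rfl
  have hfd : FiniteDimensional L (adjoin L {s}) := by
    apply adjoin.finiteDimensional
    exact ⟨Polynomial.X ^ 2 - Polynomial.C (algebraMap K L (α : K)),
      Polynomial.monic_X_pow_sub_C _ two_ne_zero, by simp [hs']⟩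
  have hN : NumberField (adjoin L {s}) := NumberField.of_module_finite L _
  have h2' : Module.finrank L (adjoin L {s}) = 2 := by
    refine Pool.Agent.TH914.J3087.finrank_two hs' ?_
    intro x hx
    apply hsL
    rw [← hx]
    exact x.2
  have hD := disc_N L k hk k' hk' α 𝔠 s Y hS hs hsL h2 hQ hN
  rw [← restrictScalars_adjoin_eq_sup] at hE
  have hnE : NumberField E := nf_of_fd E
  have hNE : NumberField (extendScalars hE) := hN
  have h1 := tower_le E (extendScalars hE)
  have h3 : Module.finrank K E * Module.finrank E (extendScalars hE) =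
      2 * Module.finrank K L := by
    have hfree : Module.Free E (extendScalars hE) := Module.Free.of_divisionRing E _
    rw [Module.finrank_mul_finrank K E (extendScalars hE)]
    have h4 : Module.finrank K (extendScalars hE) = Module.finrank K (adjoin L {s}) := rfl
    have hfree' : Module.Free L (adjoin L {s}) := Module.Free.of_divisionRing L _
    rw [h4, ← Module.finrank_mul_finrank K L (adjoin L {s}), h2', mul_comm]
  refine ⟨Module.finrank E (extendScalars hE), h3, le_trans ?_ hD⟩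
  have h6 : ((discr E).natAbs : ℝ) = dsc E := by
    rw [dsc_eq E, Nat.cast_natAbs]
  rw [← h6]
  exact_mod_cast h1

end

end Pool.Agent.H96S.CI
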