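import Pool.Agent.H96S.CI.D2

/-!
# Discriminants of the extensions twisted by quadratic characters of an intermediate field
-/

set_option autoImplicit false
set_option linter.unusedSectionVars false

open NumberField IntermediateField Pool.Agent.TH444.ML

namespace Pool.Agent.H96S.CI

theorem upp2 (F L : Type) [Field F] [NumberField F] [Field L] [NumberField L] [Algebra F L]
    (k' : Ideal (𝓞 L) → 𝓞 L → ℕ) (hk' : IsK L k') (N : Type) [Field N] [NumberField N]
    [Algebra L N] (s : N) (α π : 𝓞 F) (𝔡 𝔠 : Ideal (𝓞 F)) (h2 : Module.finrank L N = 2)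
    (hs : s ^ 2 = algebraMap L N (algebraMap F L (((α * π : 𝓞 F)) : F)))
    (hsL : ∀ x : L, algebraMap L N x ≠ s) (hα : α ≠ 0) (hπ : π ≠ 0)
    (h : Ideal.span {α} = 𝔡 * 𝔠 ^ 2) :
    (discr N).natAbs ≤ 4 ^ Module.finrank ℚ L * (discr L).natAbs ^ 2 *
      (Ideal.absNorm 𝔡 * Ideal.absNorm (Ideal.span {π})) ^ Module.finrank F L := by
  have h' : Ideal.span {α * π} = (𝔡 * Ideal.span {π}) * 𝔠 ^ 2 := by
    rw [← Ideal.span_singleton_mul_span_singleton, h]
    ring
  have hne : algebraMap (𝓞 F) (𝓞 L) (α * π) ≠ 0 := by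
    rw [Ne, FaithfulSMul.algebraMap_eq_zero_iff]
    exact mul_ne_zero hα hπ
  have h4 := upp L k' hk' N s (algebraMap (𝓞 F) (𝓞 L) (α * π)) _ _ h2 hs hsL hne
    (ext_dec F L (α * π) _ 𝔠 h')
  rw [norm_map, map_mul] at h4
  exact h4

section

variable {K Ω : Type} [Field K] [NumberField K] [Field Ω] [Algebra K Ω] [CharZero Ω]

theorem disc_E2 (F L : IntermediateField K Ω) (hFL : F ≤ L) [FiniteDimensional K L]
    [NumberField L] [NumberField F]
    (k : Ideal (𝓞 F) → 𝓞 F → ℕ) (hk : IsK F k) (k' : Ideal (𝓞 L) → 𝓞 L → ℕ) (hk' : IsK L k')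
    (α : 𝓞 F) (𝔠 : Ideal (𝓞 F)) (t : Ω) (Y : ℝ) (hS : Sqf F 𝔠 α)
    (ht : t ^ 2 = algebraMap F Ω (α : F)) (htF : ∀ x : F, algebraMap F Ω x ≠ t)
    (hQ : adjoin F {t} ∈ QS F Ω Y)
    (π : 𝓞 F) (hπ : π ≠ 0) (p : Ω) (hp : p ^ 2 = algebraMap F Ω (π : F)) (hsL : t * p ∉ L)
    (E : IntermediateField K Ω) (hE : E ≤ L ⊔ adjoin K {t * p})
    (hEf : FiniteDimensional K E) (r : ℕ) (hr : Module.finrank K F * r = Module.finrank K L) :
    ∃ m : ℕ, Module.finrank K E * m = 2 * Module.finrank K L ∧ dsc E ^ m ≤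
      4 ^ Module.finrank ℚ L * dsc L ^ 2 *
        (4 ^ Module.finrank ℚ F * Y * (Ideal.absNorm (Ideal.span {π}) : ℝ)) ^ r := by
  obtain ⟨hα, 𝔡, hd, h⟩ := hS
  obtain ⟨hq2, hNq, hY⟩ := hQ
  -- the norm of `𝔡`
  have h3 : (Ideal.absNorm 𝔡 : ℝ) ≤ 4 ^ Module.finrank ℚ F * Y := by
    refine low F k hk (adjoin F {t}) ⟨t, mem_adjoin_simple_self F t⟩ α 𝔡 𝔠 hq2 ?_ ?_ hα hd h Y hY
    · apply Subtype.ext
      exact ht
    · intro x hx
      exact htF x (congrArg Subtype.val hx)
  set s : Ω := t * p with hs_def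
  -- the algebra structure
  let algFL : Algebra F L := (inclusion hFL).toRingHom.toAlgebra
  have hmap : ∀ x : F, ((algebraMap F L x : L) : Ω) = (x : Ω) := fun x => rfl
  have hst : IsScalarTower K F L := IsScalarTower.of_algebraMap_eq fun x => Subtype.ext rfl
  have hfFL : Module.finrank F L = r := by
    have hfree : Module.Free F L := Module.Free.of_divisionRing F L
    have h4 := Module.finrank_mul_finrank K F L
    have hFf : FiniteDimensional K F :=
      Module.Finite.of_injective (inclusion hFL).toLinearMap (inclusion hFL).injective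
    have hpos : 0 < Module.finrank K F := Module.finrank_pos
    exact Nat.eq_of_mul_eq_mul_left hpos (h4.trans hr.symm)
  have hs' : s ^ 2 = algebraMap L Ω (algebraMap F L (((α * π : 𝓞 F)) : F)) := by
    have h5 : algebraMap L Ω (algebraMap F L (((α * π : 𝓞 F)) : F)) =
        algebraMap F Ω (((α * π : 𝓞 F)) : F) := rfl
    rw [h5, hs_def, mul_pow, ht, hp, ← map_mul]
    rfl
  have hfd : FiniteDimensional L (adjoin L {s}) := by
    apply adjoin.finiteDimensional
    exact ⟨Polynomial.X ^ 2 - Polynomial.C (algebraMap F L (((α * π : 𝓞 F)) : F)),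
      Polynomial.monic_X_pow_sub_C _ two_ne_zero, by simp [hs']⟩
  have hN : NumberField (adjoin L {s}) := NumberField.of_module_finite L _
  have h2' : Module.finrank L (adjoin L {s}) = 2 := by
    refine Pool.Agent.TH914.J3087.finrank_two hs' ?_
    intro x hx
    apply hsL
    rw [← hx]
    exact x.2
  have hsL' : ∀ x : L, algebraMap L (adjoin L {s}) x ≠ ⟨s, mem_adjoin_simple_self L s⟩ := by
    intro x hx
    apply hsL
    have : algebraMap L Ω x = s := congrArg Subtype.val hx
    rw [← this]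
    exact x.2
  have h4 := upp2 F L k' hk' (adjoin L {s}) ⟨s, mem_adjoin_simple_self L s⟩ α π 𝔡 𝔠 h2' (by
      apply Subtype.ext
      exact hs') hsL' hα hπ h
  rw [hfFL] at h4
  have h6 : ((discr L).natAbs : ℝ) = dsc L := by
    rw [dsc_eq L, Nat.cast_natAbs]
  have hD : ((discr (adjoin L {s})).natAbs : ℝ) ≤ 4 ^ Module.finrank ℚ L * dsc L ^ 2 *
        (4 ^ Module.finrank ℚ F * Y * (Ideal.absNorm (Ideal.span {π}) : ℝ)) ^ r := by
    have h5 : ((discr (adjoin L {s})).natAbs : ℝ) ≤ 4 ^ Module.finrank ℚ L *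
        ((discr L).natAbs : ℝ) ^ 2 *
        ((Ideal.absNorm 𝔡 : ℝ) * (Ideal.absNorm (Ideal.span {π}) : ℝ)) ^ r := by
      exact_mod_cast h4
    rw [h6] at h5
    refine h5.trans ?_
    apply mul_le_mul_of_nonneg_left _ (by positivity)
    apply pow_le_pow_left₀ (by positivity)
    exact mul_le_mul_of_nonneg_right h3 (by positivity)
  rw [← restrictScalars_adjoin_eq_sup] at hE
  have hnE : NumberField E := nf_of_fd E
  have hNE : NumberField (extendScalars hE) := hN
  have h1 := tower_le E (extendScalars hE)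
  have h3 : Module.finrank K E * Module.finrank E (extendScalars hE) =
      2 * Module.finrank K L := by
    have hfree : Module.Free E (extendScalars hE) := Module.Free.of_divisionRing E _
    rw [Module.finrank_mul_finrank K E (extendScalars hE)]
    have h4 : Module.finrank K (extendScalars hE) = Module.finrank K (adjoin L {s}) := rfl
    have hfree' : Module.Free L (adjoin L {s}) := Module.Free.of_divisionRing L _
    rw [h4, ← Module.finrank_mul_finrank K L (adjoin L {s}), h2', mul_comm]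
  refine ⟨Module.finrank E (extendScalars hE), h3, le_trans ?_ hD⟩
  have h6 : ((discr E).natAbs : ℝ) = dsc E := by
    rw [dsc_eq E, Nat.cast_natAbs]
  rw [← h6]
  exact_mod_cast h1

end

end Pool.Agent.H96S.CI
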