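import Pool.Agent.H96S.CI.D2

/-!
# The lower bound
-/

set_option autoImplicit false
set_option linter.unusedSectionVars false
set_option synthInstance.maxHeartbeats 400000

open NumberField IntermediateField Pool.Agent.TH444.ML Filter Topology

namespace Pool.Agent.H96S.CI

section

variable (K : Type) [Field K] [NumberField K]

/-- the extensions counted in Malle's conjecture -/
def CS (n : ℕ) (G : Subgroup (Equiv.Perm (Fin n))) (X : ℝ) :
    Set (IntermediateField K (AlgebraicClosure K)) :=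
  {L | Module.finrank K L = n ∧
    (∃ e : (L →ₐ[K] AlgebraicClosure K) ≃ Fin n, ∀ π : Equiv.Perm (Fin n),
      π ∈ G ↔ ∃ σ : AlgebraicClosure K ≃ₐ[K] AlgebraicClosure K,
        ∀ φ : L →ₐ[K] AlgebraicClosure K, e (σ.toAlgHom.comp φ) = π (e φ)) ∧
    ∃ h : NumberField L,
      ((|@NumberField.discr L _ h| : ℤ) : ℝ) ≤ X * ((|NumberField.discr K| : ℤ) : ℝ) ^ n}

theorem CS_finite {n : ℕ} (hn : 0 < n) (G : Subgroup (Equiv.Perm (Fin n))) (X : ℝ) :
    (CS K n G X).Finite := by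
  obtain ⟨C, hC⟩ := Pool.Agent.TH979.J3100.hermiteRel K (AlgebraicClosure K) n
  have h1 := (hC (max 1 (X * ((|NumberField.discr K| : ℤ) : ℝ) ^ n)) (le_max_left _ _)).1
  refine h1.subset ?_
  rintro E ⟨h2, -, h3, h4⟩
  refine ⟨FiniteDimensional.of_finrank_pos (by omega), h2, ?_⟩
  rw [dsc_eq E]
  exact h4.trans (le_max_right _ _)

/-- parametrisation of the quadratic extensions -/
theorem param (rep : ClassGroup (𝓞 K) → Ideal (𝓞 K)) (hrep : Rep K rep)
    (q : IntermediateField K (AlgebraicClosure K)) :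
    ∃ (a : K) (s : AlgebraicClosure K), s ≠ 0 ∧ s ^ 2 = algebraMap K (AlgebraicClosure K) a ∧
      (Module.finrank K q = 2 → q = adjoin K {s} ∧ ∃ (C : ClassGroup (𝓞 K)) (α : 𝓞 K),
        Sqf K (rep C) α ∧ (α : K) = a) := by
  by_cases h : Module.finrank K q = 2
  · obtain ⟨C, α, s, h1, h2, h3, h4⟩ :=
      (Pool.Agent.TH914.J3087.kumP K (AlgebraicClosure K) rep hrep).1 q h
    refine ⟨α, s, ?_, h2, fun _ => ⟨h4, C, α, h1, rfl⟩⟩
    rintro rfl
    exact h3 0 (map_zero _)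
  · exact ⟨1, 1, one_ne_zero, by simp, fun h' => absurd h' h⟩

theorem exists_rep : ∃ rep : ClassGroup (𝓞 K) → Ideal (𝓞 K), Rep K rep := by
  have h : ∀ C : ClassGroup (𝓞 K), ∃ I : Ideal (𝓞 K),
      ∃ h : I ∈ nonZeroDivisors (Ideal (𝓞 K)), ClassGroup.mk0 ⟨I, h⟩ = C := by
    intro C
    obtain ⟨⟨I, hI⟩, h⟩ := ClassGroup.mk0_surjective C
    exact ⟨I, hI, h⟩
  choose rep hrep using h
  exact ⟨rep, hrep⟩

/-- the count for a fixed bound on the quadratic fields -/
theorem step {n : ℕ} {G : Subgroup (Equiv.Perm (Fin n))} (hG : ∀ i j : Fin n, ∃ g ∈ G, g i = j)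
    (z : G) (hz : ∀ g, z * g = g * z) (hz2 : z * z = 1) (hz1 : z ≠ 1)
    {L : IntermediateField K (AlgebraicClosure K)} [FiniteDimensional K L] [IsGalois K L]
    (ρ₀ : (L ≃ₐ[K] L) ≃* G) :
    ∃ B : ℝ, 0 < B ∧ ∀ X Y : ℝ, 0 ≤ X → 0 ≤ Y →
      (∀ m : ℕ, n * m = 2 * Nat.card G → B * Y ^ Nat.card G ≤ X ^ m) →
      Set.ncard (QS K (AlgebraicClosure K) Y) ≤ 2 ^ Nat.card G * (Set.ncard (CS K n G X) + 1) := by
  classical
  have hfin : Finite (Equiv.Perm (Fin n)) := inferInstance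
  have hnL : NumberField L := nf_of_fd L
  have hn : 0 < n := by
    rcases Nat.eq_zero_or_pos n with rfl | h
    · exact absurd (Subtype.ext (Subsingleton.elim _ _)) hz1
    · exact h
  let i0 : Fin n := ⟨0, hn⟩
  let ρ : (AlgebraicClosure K ≃ₐ[K] AlgebraicClosure K) →* G :=
    ρ₀.toMonoidHom.comp (AlgEquiv.restrictNormalHom L)
  have hL : ∀ σ, σ ∈ L.fixingSubgroup ↔ ρ σ = 1 := by
    intro σ
    rw [← L.restrictNormalHom_ker, MonoidHom.mem_ker]
    show _ ↔ ρ₀ (AlgEquiv.restrictNormalHom L σ) = 1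
    rw [MulEquiv.map_eq_one_iff]
  have hρ : Function.Surjective ρ := by
    intro g
    obtain ⟨σ, hσ⟩ := AlgEquiv.restrictNormalHom_surjective (F := K) (K₁ := L)
      (AlgebraicClosure K) (ρ₀.symm g)
    refine ⟨σ, ?_⟩
    show ρ₀ (AlgEquiv.restrictNormalHom L σ) = g
    rw [hσ, MulEquiv.apply_symm_apply]
  have hcard : Module.finrank K L = Nat.card G := by
    rw [← IsGalois.card_aut_eq_finrank]
    exact Nat.card_congr ρ₀.toEquiv
  have hG0 : 0 < Nat.card G := Nat.card_pos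
  obtain ⟨rep, hrep⟩ := exists_rep K
  choose a s hs0 hs hq using param K rep hrep
  obtain ⟨k, hk⟩ := Pool.Agent.TH263.J3086.discQuad K
  obtain ⟨k', hk'⟩ := Pool.Agent.TH263.J3086.discQuad L
  have hdL : 0 < dsc L := lt_of_lt_of_le one_pos (one_le_dsc L)
  refine ⟨4 ^ Module.finrank ℚ L * dsc L ^ 2 * (4 ^ Module.finrank ℚ K) ^ Nat.card G,
    by positivity, ?_⟩
  intro X Y hX hY hXY
  obtain ⟨C, hC⟩ := quadUnif (Module.finrank ℚ K)
  have hQf := (hC K (AlgebraicClosure K) rfl Y hY).1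
  have hTf := CS_finite K hn G X
  rw [Set.ncard_eq_toFinset_card _ hQf, Set.ncard_eq_toFinset_card _ hTf]
  refine main_count (z := z) (hz := hz) (hz2 := hz2) hL hρ hG hz1 i0 hQf.toFinset s a hs0 hs ?_
    hTf.toFinset ?_
  · intro q hq'
    rw [Set.Finite.mem_toFinset] at hq'
    exact (hq q hq'.1).1
  · intro q hq' hsL
    rw [Set.Finite.mem_toFinset] at hq' ⊢
    obtain ⟨h1, Cl, α, h2, h3⟩ := hq q hq'.1
    have := fd_adj (hs q)
    have hker := ps_ker (z := z) (hz := hz) (hz2 := hz2) (hs0 := hs0 q) (hs := hs q) hL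
    have htr := ps_trans (z := z) (hz := hz) (hz2 := hz2) (hs0 := hs0 q) (hs := hs q) hL hρ hsL
      hG i0
    have hfr := finrank_FE hker htr
    have hgp := gp_FE hker htr
    rw [ps_range hL hρ hsL] at hgp
    have hle := FE_le (i0 := i0) hker
    have hEf : FiniteDimensional K (FE (ps ρ z hz hz2 (s q) (hs0 q) (hs q)) i0) :=
      FiniteDimensional.of_finrank_pos (by omega)
    have hnE : NumberField (FE (ps ρ z hz hz2 (s q) (hs0 q) (hs q)) i0) := nf_of_fd _
    have hq2 : Module.finrank K (adjoin K {s q}) = 2 := by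
      rw [← h1]; exact hq'.1
    have hqQ : adjoin K {s q} ∈ QS K (AlgebraicClosure K) Y := by
      rw [← h1]; exact hq'
    obtain ⟨m, hm1, hm2⟩ := disc_E L k hk k' hk' α (rep Cl) (s q) Y h2 (by rw [hs, h3]) hsL hq2 hqQ
      _ hle hEf
    refine ⟨hfr, hgp, hnE, ?_⟩
    rw [hfr, hcard] at hm1
    have h4 := hXY m hm1
    have h5 : dsc (FE (ps ρ z hz hz2 (s q) (hs0 q) (hs q)) i0) ^ m ≤ X ^ m := by
      refine hm2.trans (le_trans (le_of_eq ?_) h4)
      rw [hcard, mul_pow]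
      ring
    have hm0 : m ≠ 0 := by
      rintro rfl
      rw [mul_zero] at hm1
      omega
    have h6 := (pow_le_pow_iff_left₀ (le_trans zero_le_one (one_le_dsc _)) hX hm0).1 h5
    rw [← dsc_eq]
    refine h6.trans ?_
    have h7 : (1 : ℝ) ≤ ((|discr K| : ℤ) : ℝ) := by
      exact_mod_cast Int.one_le_abs (discr_ne_zero K)
    exact le_mul_of_one_le_right hX (one_le_pow₀ h7)

end

end Pool.Agent.H96S.CI
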