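import Pool.Agent.H96S.CI.E

/-!
# The lower bound with its exponent
-/

set_option autoImplicit false
set_option linter.unusedSectionVars false

open NumberField IntermediateField Pool.Agent.TH444.ML Filter Topology

namespace Pool.Agent.H96S.CI

theorem lower (K : Type) [Field K] [NumberField K] {n : ℕ} {G : Subgroup (Equiv.Perm (Fin n))}
    (hG : ∀ i j : Fin n, ∃ g ∈ G, g i = j)
    (z : G) (hz : ∀ g, z * g = g * z) (hz2 : z * z = 1) (hz1 : z ≠ 1)
    (hne : (Gal K (AlgebraicClosure K) G).Nonempty) :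
    ∃ c : ℝ, 0 < c ∧ ∃ X₀ : ℝ, ∀ X : ℝ, X₀ ≤ X →
      c * X ^ ((2 : ℝ) / n) ≤ Set.ncard (CS K n G X) := by
  classical
  obtain ⟨L, hfd, hgal, ⟨ρ₀⟩⟩ := hne
  obtain ⟨B, hB, hstep⟩ := step K hG z hz hz2 hz1 ρ₀
  have hn : 0 < n := by
    rcases Nat.eq_zero_or_pos n with rfl | h
    · exact absurd (Subtype.ext (Subsingleton.elim _ _)) hz1
    · exact h
  have hg : 0 < Nat.card G := Nat.card_pos
  have hgR : (0 : ℝ) < Nat.card G := by exact_mod_cast hg
  have hnR : (0 : ℝ) < n := by exact_mod_cast hn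
  obtain ⟨b, hb, hbB⟩ : ∃ b : ℝ, 0 < b ∧ B * b ^ Nat.card G = 1 := by
    refine ⟨(B⁻¹) ^ ((1 : ℝ) / Nat.card G), by positivity, ?_⟩
    rw [← Real.rpow_natCast, ← Real.rpow_mul (by positivity), one_div, inv_mul_cancel₀ hgR.ne',
      Real.rpow_one, mul_inv_cancel₀ hB.ne']
  obtain ⟨c, hc⟩ := quadLim rest K (AlgebraicClosure K)
  have hc0 : 0 < c := by
    have h1 : 0 ≤ c := by
      refine ge_of_tendsto hc ?_
      filter_upwards [eventually_gt_atTop (0 : ℝ)] with Y hY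
      positivity
    rcases h1.lt_or_eq with h2 | h2
    · exact h2
    · exact absurd (h2 ▸ hc) (quadPos K (AlgebraicClosure K))
  have hpow : Tendsto (fun X : ℝ => X ^ ((2 : ℝ) / n)) atTop atTop :=
    tendsto_rpow_atTop (by positivity)
  have hYt : Tendsto (fun X : ℝ => b * X ^ ((2 : ℝ) / n)) atTop atTop :=
    hpow.const_mul_atTop hb
  have hev1 := hYt.eventually ((hc.eventually (lt_mem_nhds (by linarith : c / 2 < c))).and
    (eventually_gt_atTop (0 : ℝ)))
  have hev2 := hpow.eventually (eventually_ge_atTop (4 * 2 ^ Nat.card G / (c * b)))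
  obtain ⟨X₀, hX₀⟩ := eventually_atTop.1 ((hev1.and hev2).and (eventually_gt_atTop (0 : ℝ)))
  refine ⟨c * b / (4 * 2 ^ Nat.card G), by positivity, X₀, fun X hX => ?_⟩
  obtain ⟨⟨⟨h1, h2⟩, h3⟩, h4⟩ := hX₀ X hX
  have h5 := hstep X (b * X ^ ((2 : ℝ) / n)) h4.le h2.le (by
    intro m hm
    rw [mul_pow, ← mul_assoc, hbB, one_mul, ← Real.rpow_natCast, ← Real.rpow_mul h4.le]
    have hmR : (n : ℝ) * m = 2 * Nat.card G := by exact_mod_cast hm
    have h6 : (2 : ℝ) / n * (Nat.card G : ℝ) = m := by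
      field_simp
      linarith
    rw [h6, Real.rpow_natCast])
  have h6 : (Set.ncard (QS K (AlgebraicClosure K) (b * X ^ ((2 : ℝ) / n))) : ℝ) ≤
      2 ^ Nat.card G * ((Set.ncard (CS K n G X) : ℝ) + 1) := by exact_mod_cast h5
  rw [lt_div_iff₀ h2] at h1
  have hP : (0 : ℝ) < 2 ^ Nat.card G := by positivity
  have hcb : 0 < c * b := by positivity
  rw [div_le_iff₀ hcb] at h3
  rw [div_mul_eq_mul_div, div_le_iff₀ (by positivity)]
  nlinarith [h1.le.trans h6]

end Pool.Agent.H96S.CI
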