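import Pool.Agent.H96S.CI.P

/-!
# Elements of `F` with independent conjugates over `M`
-/

set_option autoImplicit false
set_option linter.unusedSectionVars false

open NumberField IntermediateField Pool.Agent.TH444.ML Filter Topology

namespace Pool.Agent.H96S.CI

namespace Tw

section

variable {K Ω : Type} [Field K] [NumberField K] [Field Ω] [Algebra K Ω] [IsAlgClosure K Ω]
  [IsGalois K Ω] [CharZero Ω] {n : ℕ}
  {G : Subgroup (Equiv.Perm (Fin n))} {D : Tw K Ω G}

theorem lemP {L : IntermediateField K Ω} (hL : ∀ σ, σ ∈ L.fixingSubgroup ↔ D.ρ σ = 1)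
    (M : IntermediateField K Ω) [FiniteDimensional K M] [IsGalois K M] (hLM : L ≤ M)
    (hM : 2 ≤ Module.finrank K M) :
    ∃ p : Ω, p ≠ 0 ∧ IsIntegral ℤ p ∧ p ^ 2 ∈ D.F ∧ ∀ S : Finset G, S.Nonempty → (∀ c ∈ S, IsConj D.v c) →
      ∏ c ∈ S, D.κ c p ∉ M := by
  classical
  obtain ⟨t, ht0, htI, ht2, σ₁, hσM, hσt, hσ⟩ := star2 M hM
  let r : (Ω ≃ₐ[K] Ω) →* (M ≃ₐ[K] M) := AlgEquiv.restrictNormalHom M
  have hker : ∀ σ, r σ = 1 ↔ σ ∈ M.fixingSubgroup := by
    intro σ
    rw [← M.restrictNormalHom_ker, MonoidHom.mem_ker]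
  have hsurj : Function.Surjective r := AlgEquiv.restrictNormalHom_surjective Ω
  choose l hl using hsurj
  have hMU : ∀ σ, σ ∈ M.fixingSubgroup → σ ∈ D.U := by
    intro σ hσ'
    apply fixL_le_U hL
    rw [IntermediateField.mem_fixingSubgroup_iff] at hσ' ⊢
    exact fun x hx => hσ' x (hLM hx)
  have hagr : ∀ σ τ, r σ = r τ → τ⁻¹ * σ ∈ M.fixingSubgroup := by
    intro σ τ h
    rw [← hker, map_mul, map_inv, h, inv_mul_cancel]
  have hagr2 : ∀ σ τ, r σ = r τ → ∀ a ∈ M, σ a = τ a := by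
    intro σ τ h a ha
    have h1 := (IntermediateField.mem_fixingSubgroup_iff _ _).1 (hagr σ τ h) a ha
    have h2 : τ ((τ⁻¹ * σ) a) = τ a := by rw [h1]
    exact (AlgEquiv.apply_symm_apply τ (σ a)).symm.trans h2
  have hagr3 : ∀ σ τ, r σ = r τ → (σ ∈ D.U ↔ τ ∈ D.U) := by
    intro σ τ h
    have h1 := hMU _ (hagr σ τ h)
    constructor
    · intro h2
      have h3 := D.U.mul_mem h2 (D.U.inv_mem h1)
      rwa [mul_inv_rev, inv_inv, mul_inv_cancel_left] at h3
    · intro h2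
      have h3 := D.U.mul_mem h2 h1
      rwa [mul_inv_cancel_left] at h3
  let C : Finset (M ≃ₐ[K] M) := Finset.univ.filter (fun h => l h ∈ D.U)
  have hC : ∀ h, h ∈ C ↔ l h ∈ D.U := by
    intro h
    rw [Finset.mem_filter]
    exact ⟨fun h' => h'.2, fun h' => ⟨Finset.mem_univ _, h'⟩⟩
  have h1C : (1 : M ≃ₐ[K] M) ∈ C := by
    rw [hC]
    exact hMU _ ((hker _).1 (hl 1))
  let p : Ω := ∏ h ∈ C, l h t
  have hp0 : p ≠ 0 := by
    rw [Finset.prod_ne_zero_iff]
    intro h _ h'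
    exact ht0 ((map_eq_zero (l h)).1 h')
  refine ⟨p, hp0, IsIntegral.prod _ fun h _ => htI.map ((l h).restrictScalars ℤ), ?_, ?_⟩
  · unfold F
    rw [mem_fixedField_iff]
    intro σ hσU
    have hp2 : p ^ 2 = ∏ h ∈ C, l h (t ^ 2) := by
      show (∏ h ∈ C, l h t) ^ 2 = _
      rw [← Finset.prod_pow]
      exact Finset.prod_congr rfl fun h _ => (map_pow (l h) t 2).symm
    rw [hp2, map_prod]
    refine Finset.prod_equiv (Equiv.mulLeft (r σ)) ?_ ?_
    · intro h
      rw [hC, hC]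
      show l h ∈ D.U ↔ l (r σ * h) ∈ D.U
      rw [hagr3 (l (r σ * h)) (σ * l h) (by rw [hl, map_mul, hl])]
      constructor
      · intro h1
        exact D.U.mul_mem hσU h1
      · intro h1
        have h2 := D.U.mul_mem (D.U.inv_mem hσU) h1
        rwa [inv_mul_cancel_left] at h2
    · intro h _
      show σ (l h (t ^ 2)) = l (r σ * h) (t ^ 2)
      exact hagr2 (σ * l h) (l (r σ * h)) (by rw [hl, map_mul, hl]) _ ht2
  · intro S hS hSc hmem
    obtain ⟨c₀, hc₀⟩ := hS
    let σ' : Ω ≃ₐ[K] Ω := D.κ c₀ * σ₁ * (D.κ c₀)⁻¹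
    have hσ'M : σ' ∈ M.fixingSubgroup := by
      rw [← hker, map_mul, map_mul, map_inv, (hker σ₁).2 hσM, mul_one, mul_inv_cancel]
    have hfac : ∀ c : G, D.κ c p = ∏ h ∈ C, D.κ c (l h t) := fun c => map_prod _ _ _
    have hcomp : ∀ (c : G) (h : M ≃ₐ[K] M), σ' (D.κ c (l h t)) = D.κ c₀ (σ₁ (((D.κ c₀)⁻¹ * D.κ c * l h) t)) :=
      fun c h => rfl
    have hback : ∀ (c : G) (h : M ≃ₐ[K] M), D.κ c₀ (((D.κ c₀)⁻¹ * D.κ c * l h) t) = D.κ c (l h t) := by
      intro c h
      have : (D.κ c₀ * ((D.κ c₀)⁻¹ * D.κ c * l h)) t = D.κ c (l h t) := by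
        rw [mul_assoc, mul_inv_cancel_left]; rfl
      exact this
    have hcase : ∀ (c : G) (h : M ≃ₐ[K] M), IsConj D.v c → h ∈ C → (c ≠ c₀ ∨ h ≠ 1) →
        σ' (D.κ c (l h t)) = D.κ c (l h t) := by
      intro c h hc hh hne
      rw [hcomp, hσ, hback]
      intro hin
      have h1 := hMU _ hin
      have h2 : (D.κ c₀)⁻¹ * D.κ c ∈ D.U := by
        have h3 := D.U.mul_mem h1 (D.U.inv_mem ((hC h).1 hh))
        rwa [mul_inv_cancel_right] at h3
      rw [mem_U, map_mul, map_inv] at h2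
      have h4 : c = c₀ := by
        rw [← D.hκ c hc, ← D.hκ c₀ (hSc c₀ hc₀)]
        have h5 : D.ρ (D.κ c) * D.v = D.ρ (D.κ c₀) * D.v * ((D.ρ (D.κ c₀))⁻¹ * D.ρ (D.κ c)) := by
          rw [mul_assoc _ D.v, ← h2]; group
        rw [h5]; group
      subst h4
      rcases hne with hne | hne
      · exact hne rfl
      · rw [inv_mul_cancel, one_mul, ← hker, hl] at hin
        exact hne hin
    have hone : σ' (D.κ c₀ (l 1 t)) = -D.κ c₀ (l 1 t) := by
      rw [hcomp, inv_mul_cancel, one_mul]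
      have h1 : l 1 ∈ M.fixingSubgroup := (hker _).1 (hl 1)
      have h2 : l 1 (t ^ 2) = t ^ 2 := (IntermediateField.mem_fixingSubgroup_iff _ _).1 h1 _ ht2
      rw [map_pow] at h2
      rcases sq_eq_sq_iff_eq_or_eq_neg.1 h2 with h3 | h3
      · rw [h3, hσt, map_neg]
      · rw [h3, map_neg, hσt, map_neg]
    have hpc₀ : σ' (D.κ c₀ p) = -D.κ c₀ p := by
      rw [hfac c₀, ← Finset.mul_prod_erase C _ h1C, map_mul, map_prod, hone,
        Finset.prod_congr rfl (fun h hh => hcase c₀ h (hSc c₀ hc₀) (Finset.mem_of_mem_erase hh)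
          (Or.inr (Finset.ne_of_mem_erase hh)))]
      ring
    have hpc : ∀ c ∈ S.erase c₀, σ' (D.κ c p) = D.κ c p := by
      intro c hc
      rw [hfac c, map_prod]
      exact Finset.prod_congr rfl fun h hh => hcase c h (hSc c (Finset.mem_of_mem_erase hc)) hh
        (Or.inl (Finset.ne_of_mem_erase hc))
    clear_value p
    have hx := (IntermediateField.mem_fixingSubgroup_iff _ _).1 hσ'M _ hmem
    rw [← Finset.mul_prod_erase S _ hc₀, map_mul, hpc₀, map_prod, Finset.prod_congr rfl hpc] at hx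
    have hx0 : D.κ c₀ p * ∏ c ∈ S.erase c₀, D.κ c p ≠ 0 := by
      apply mul_ne_zero
      · exact fun h => hp0 ((map_eq_zero (D.κ c₀)).1 h)
      · rw [Finset.prod_ne_zero_iff]
        exact fun c _ h => hp0 ((map_eq_zero (D.κ c)).1 h)
    apply hx0
    have h2 : (2 : Ω) * (D.κ c₀ p * ∏ c ∈ S.erase c₀, D.κ c p) = 0 := by
      linear_combination -hx
    exact (mul_eq_zero.1 h2).resolve_left two_ne_zero

/-- a sequence of such elements -/
theorem seqP {L : IntermediateField K Ω} [FiniteDimensional K L] [IsGalois K L]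
    (hL : ∀ σ, σ ∈ L.fixingSubgroup ↔ D.ρ σ = 1)
    (hM : 2 ≤ Module.finrank K L) (N : ℕ) :
    ∃ p : ℕ → Ω, (∀ j, p j ≠ 0 ∧ (p j) ^ 2 ∈ D.F ∧ IsIntegral ℤ (p j)) ∧ (∀ i j, i < j → j < N →
      ∀ S : Finset G, S.Nonempty → (∀ c ∈ S, IsConj D.v c) →
      ∏ c ∈ S, D.κ c (p i * p j) ∉ L) ∧ ∃ M : IntermediateField K Ω,
        FiniteDimensional K M ∧ IsGalois K M ∧ L ≤ M ∧ ∀ j, j < N → p j ∈ M := by
  classical
  induction N with
  | zero =>
    refine ⟨fun _ => 1, fun _ => ⟨one_ne_zero, by rw [one_pow]; exact one_mem _,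
        isIntegral_one⟩,
      fun i j _ h => absurd h (Nat.not_lt_zero _), L, inferInstance, inferInstance, le_rfl,
      fun j h => absurd h (Nat.not_lt_zero _)⟩
  | succ N ih =>
    obtain ⟨p, hp1, hp2, M, hMf, hMg, hLM, hpM⟩ := ih
    have hML : Module.finrank K L ≤ Module.finrank K M :=
      Submodule.finrank_mono (s := Subalgebra.toSubmodule L.toSubalgebra)
        (t := Subalgebra.toSubmodule M.toSubalgebra) hLM
    obtain ⟨q, hq0, hqI, hq2, hq⟩ := lemP hL M hLM (hM.trans hML)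
    have hadj : FiniteDimensional K (adjoin K {q}) :=
      adjoin.finiteDimensional (Algebra.IsIntegral.isIntegral q)
    let M' := normalClosure K (M ⊔ adjoin K {q} : IntermediateField K Ω) Ω
    have hM'f : FiniteDimensional K M' := normalClosure.is_finiteDimensional K _ Ω
    have hM'n : Normal K M' := normalClosure.normal K _ Ω
    have hM'g : IsGalois K M' := ⟨⟩
    have hle : M ⊔ adjoin K {q} ≤ M' := le_normalClosure _
    refine ⟨Function.update p N q, ?_, ?_, M', hM'f, hM'g,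
      hLM.trans (le_sup_left.trans hle), ?_⟩
    · intro j
      by_cases h : j = N
      · subst h; rw [Function.update_self]; exact ⟨hq0, hq2, hqI⟩
      · rw [Function.update_of_ne h]; exact hp1 j
    · intro i j hij hj S hS hSc
      have hi : i ≠ N := by omega
      rw [Function.update_of_ne hi]
      by_cases h : j = N
      · subst h
        rw [Function.update_self]
        intro hmem
        have h1 : ∏ c ∈ S, D.κ c (p i * q) = (∏ c ∈ S, D.κ c (p i)) * ∏ c ∈ S, D.κ c q := by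
          rw [← Finset.prod_mul_distrib]
          exact Finset.prod_congr rfl fun c _ => map_mul _ _ _
        have h2 : ∏ c ∈ S, D.κ c (p i) ∈ M :=
          prod_mem fun c _ => nrm_mem M _ (hpM i (by omega))
        have h3 : ∏ c ∈ S, D.κ c (p i) ≠ 0 := by
          rw [Finset.prod_ne_zero_iff]
          exact fun c _ h => (hp1 i).1 ((map_eq_zero (D.κ c)).1 h)
        apply hq S hS hSc
        have h4 : ∏ c ∈ S, D.κ c q =
            (∏ c ∈ S, D.κ c (p i))⁻¹ * ∏ c ∈ S, D.κ c (p i * q) := by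
          rw [h1, inv_mul_cancel_left₀ h3]
        rw [h4]
        exact mul_mem (inv_mem h2) (hLM hmem)
      · rw [Function.update_of_ne h]
        exact hp2 i j hij (by omega) S hS hSc
    · intro j hj
      by_cases h : j = N
      · subst h; rw [Function.update_self]
        exact hle (le_sup_right (a := M) (mem_adjoin_simple_self K q))
      · rw [Function.update_of_ne h]
        exact hle (le_sup_left (a := M) (hpM j (by omega)))

/-- one of the twists of `t` is good -/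
theorem pigeon {L : IntermediateField K Ω} [FiniteDimensional K L] [IsGalois K L]
    (hL : ∀ σ, σ ∈ L.fixingSubgroup ↔ D.ρ σ = 1)
    (hM : 2 ≤ Module.finrank K L) :
    ∃ (N : ℕ) (p : ℕ → Ω), (∀ j, p j ≠ 0 ∧ (p j) ^ 2 ∈ D.F ∧ IsIntegral ℤ (p j)) ∧
      ∀ t : Ω, t ≠ 0 → t ^ 2 ∈ D.F → ∃ j < N, Good D (t * p j) := by
  classical
  have : Fintype G := Fintype.ofFinite G
  obtain ⟨p, hp1, hp2, -⟩ := seqP hL hM (Fintype.card (Finset G) + 1)
  refine ⟨Fintype.card (Finset G) + 1, p, hp1, ?_⟩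
  intro t ht0 ht2
  by_contra hcon
  push Not at hcon
  have hFL := F_le hL
  have hok : ∀ j, D.Ok (t * p j) := fun j =>
    ok_of_sq (mul_ne_zero ht0 (hp1 j).1) (by rw [mul_pow]; exact mul_mem ht2 (hp1 j).2.1)
  have hbad : ∀ j : Fin (Fintype.card (Finset G) + 1), ∃ S : Finset G, S.Nonempty ∧
      (∀ c ∈ S, IsConj D.v c) ∧ ∏ c ∈ S, D.κ c (t * p j) ∈ L := by
    intro j
    by_contra hS
    push Not at hS
    exact hcon j j.2 (good_of hL (hok j) hS)
  choose S hS1 hS2 hS3 using hbad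
  obtain ⟨i, j, hij, hSij⟩ := Fintype.exists_ne_map_eq_of_card_lt S (by
    rw [Fintype.card_fin]; exact Nat.lt_succ_self _)
  have key : ∀ i j : Fin (Fintype.card (Finset G) + 1), i < j → S i = S j → False := by
    intro i j hij hSij
    apply hp2 i j hij j.2 (S i) (hS1 i) (hS2 i)
    have h3 := hS3 j
    rw [← hSij] at h3
    have h4 := mul_mem (hS3 i) h3
    rw [← Finset.prod_mul_distrib] at h4
    have h5 : ∏ c ∈ S i, (D.κ c (t * p i) * D.κ c (t * p j)) =
        (∏ c ∈ S i, D.κ c (t ^ 2)) * ∏ c ∈ S i, D.κ c (p i * p j) := by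
      rw [← Finset.prod_mul_distrib]
      refine Finset.prod_congr rfl fun c _ => ?_
      rw [← map_mul, ← map_mul]
      congr 1
      ring
    rw [h5] at h4
    have h6 : ∏ c ∈ S i, D.κ c (t ^ 2) ∈ L := prod_mem fun c _ => nrm_mem L _ (hFL ht2)
    have h7 : ∏ c ∈ S i, D.κ c (t ^ 2) ≠ 0 := by
      rw [Finset.prod_ne_zero_iff]
      exact fun c _ h => (pow_ne_zero 2 ht0) ((map_eq_zero (D.κ c)).1 h)
    have h8 : ∏ c ∈ S i, D.κ c (p i * p j) = (∏ c ∈ S i, D.κ c (t ^ 2))⁻¹ *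
        ((∏ c ∈ S i, D.κ c (t ^ 2)) * ∏ c ∈ S i, D.κ c (p i * p j)) := by
      rw [inv_mul_cancel_left₀ h7]
    rw [h8]
    exact mul_mem (inv_mem h6) h4
  rcases lt_or_gt_of_ne hij with h | h
  · exact key i j h hSij
  · exact key j i h hSij.symm

end

end Tw

end Pool.Agent.H96S.CI
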