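import Pool.Agent.H96S.CI.D3
import Pool.Agent.H96S.CI.P2
import Pool.Agent.H96S.CI.F

/-!
# Counting the extensions twisted by quadratic characters of `F`
-/

set_option autoImplicit false
set_option linter.unusedSectionVars false
set_option synthInstance.maxHeartbeats 400000

open NumberField IntermediateField Pool.Agent.TH444.ML Filter Topology

namespace Pool.Agent.H96S.CI

/-- parametrisation of the quadratic extensions -/
theorem param2 (M E : Type) [Field M] [NumberField M] [Field E] [Algebra M E] [IsAlgClosed E]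
    (rep : ClassGroup (𝓞 M) → Ideal (𝓞 M)) (hrep : Rep M rep) (q : IntermediateField M E) :
    ∃ t : E, t ≠ 0 ∧ t ^ 2 ∈ Set.range (algebraMap M E) ∧
      (Module.finrank M q = 2 → q = adjoin M {t} ∧ (∀ x : M, algebraMap M E x ≠ t) ∧
        ∃ (C : ClassGroup (𝓞 M)) (α : 𝓞 M), Sqf M (rep C) α ∧
          t ^ 2 = algebraMap M E (α : M)) := by
  by_cases h : Module.finrank M q = 2
  · obtain ⟨C, α, s, h1, h2, h3, h4⟩ :=
      (Pool.Agent.TH914.J3087.kumP M E rep hrep).1 q h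
    refine ⟨s, ?_, ⟨_, h2.symm⟩, fun _ => ⟨h4, h3, C, α, h1, h2⟩⟩
    rintro rfl
    exact h3 0 (map_zero _)
  · exact ⟨1, one_ne_zero, ⟨1, by simp⟩, fun h' => absurd h' h⟩

theorem exists_rep2 (M : Type) [Field M] [NumberField M] :
    ∃ rep : ClassGroup (𝓞 M) → Ideal (𝓞 M), Rep M rep := by
  have h : ∀ C : ClassGroup (𝓞 M), ∃ I : Ideal (𝓞 M),
      ∃ h : I ∈ nonZeroDivisors (Ideal (𝓞 M)), ClassGroup.mk0 ⟨I, h⟩ = C := by
    intro C
    obtain ⟨⟨I, hI⟩, h⟩ := ClassGroup.mk0_surjective C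
    exact ⟨I, hI, h⟩
  choose rep hrep using h
  exact ⟨rep, hrep⟩

theorem adj_eq2 {M Ω : Type} [Field M] [Field Ω] [Algebra M Ω] {s s' : Ω} (hs0 : s ≠ 0)
    (hs0' : s' ≠ 0) (h : s * s' ∈ Set.range (algebraMap M Ω)) :
    adjoin M {s} = adjoin M {s'} := by
  have key : ∀ t t' : Ω, t ≠ 0 → t * t' ∈ Set.range (algebraMap M Ω) →
      adjoin M {t'} ≤ adjoin M {t} := by
    intro t t' ht ⟨k, hk⟩
    rw [adjoin_simple_le_iff]
    have : t' = algebraMap M Ω k * t⁻¹ := by
      rw [hk]; field_simp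
    rw [this]
    exact mul_mem (IntermediateField.algebraMap_mem _ k) (inv_mem (mem_adjoin_simple_self M t))
  refine le_antisymm (key s' s hs0' ?_) (key s s' hs0 h)
  rw [mul_comm]; exact h

section

variable (K : Type) [Field K] [NumberField K]

theorem step2 {n : ℕ} {G : Subgroup (Equiv.Perm (Fin n))} (D : Tw K (AlgebraicClosure K) G)
    {L : IntermediateField K (AlgebraicClosure K)} [FiniteDimensional K L] [IsGalois K L]
    (hL : ∀ σ, σ ∈ L.fixingSubgroup ↔ D.ρ σ = 1) (hG : ∀ i j : Fin n, ∃ g ∈ G, g i = j)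
    {x₀ : Fin n} (hx₀ : D.V x₀ = D.v) :
    ∃ _ : NumberField D.F, ∃ (B : ℝ) (A : ℕ), 0 < B ∧ 0 < A ∧
      (∃ r, Module.finrank K D.F * r = Nat.card G) ∧ ∀ X Y : ℝ, 0 ≤ X → 0 ≤ Y →
      (∀ m r : ℕ, n * m = 2 * Nat.card G → Module.finrank K D.F * r = Nat.card G →
        B * Y ^ r ≤ X ^ m) →
      Set.ncard (QS D.F (AlgebraicClosure K) Y) ≤ A * Set.ncard (CS K n G X) := by
  classical
  have hfinG : Finite G := inferInstance
  have : Fintype G := Fintype.ofFinite G
  have hn : 0 < n := lt_of_le_of_lt (Nat.zero_le _) x₀.2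
  have hnL : NumberField L := nf_of_fd L
  have hcard : Module.finrank K L = Nat.card G := by
    rw [finrank_eq_fixingSubgroup_index]
    have h1 : L.fixingSubgroup = D.ρ.ker := by
      ext σ
      rw [hL, MonoidHom.mem_ker]
    rw [h1, Subgroup.index_ker, MonoidHom.range_eq_top.2 D.hρ]
    exact Nat.card_congr Subgroup.topEquiv.toEquiv
  have hG2 : 2 ≤ Module.finrank K L := by
    rw [hcard]
    have : Nontrivial G := ⟨⟨D.v, 1, D.hv1⟩⟩
    exact Finite.one_lt_card
  have hFL := Tw.F_le hL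
  have hFf : FiniteDimensional K D.F :=
    Module.Finite.of_injective (inclusion hFL).toLinearMap (inclusion hFL).injective
  have hnF : NumberField D.F := nf_of_fd _
  have hFpos : 0 < Module.finrank K D.F := Module.finrank_pos
  obtain ⟨r₀, hr₀⟩ : ∃ r, Module.finrank K D.F * r = Module.finrank K L := by
    have hfree : Module.Free D.F (extendScalars hFL) := Module.Free.of_divisionRing _ _
    exact ⟨_, Module.finrank_mul_finrank K D.F (extendScalars hFL)⟩
  obtain ⟨N, p, hp1, hpg⟩ := Tw.pigeon hL hG2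
  -- the integers `π j`
  have hπ : ∀ j, ∃ π : 𝓞 D.F, π ≠ 0 ∧
      (p j) ^ 2 = algebraMap D.F (AlgebraicClosure K) (π : D.F) := by
    intro j
    have h1 : IsIntegral ℤ (⟨(p j) ^ 2, (hp1 j).2.1⟩ : D.F) := by
      rw [← isIntegral_algebraMap_iff (algebraMap D.F (AlgebraicClosure K)).injective]
      exact (hp1 j).2.2.pow 2
    refine ⟨⟨⟨(p j) ^ 2, (hp1 j).2.1⟩, h1⟩, ?_, rfl⟩
    intro h
    have h2 : (p j) ^ 2 = 0 := congrArg (fun y : 𝓞 D.F => ((y : D.F) : AlgebraicClosure K)) h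
    exact (pow_ne_zero 2 (hp1 j).1) h2
  choose π hπ0 hπp using hπ
  obtain ⟨P, hP0, hP⟩ : ∃ P : ℝ, 0 < P ∧ ∀ j < N,
      (Ideal.absNorm (Ideal.span {π j}) : ℝ) ≤ P := by
    refine ⟨∑ j ∈ Finset.range N, (Ideal.absNorm (Ideal.span {π j}) : ℝ) + 1,
      by positivity, fun j hj => ?_⟩
    have := Finset.single_le_sum (f := fun j => (Ideal.absNorm (Ideal.span {π j}) : ℝ))
      (fun i _ => by positivity) (Finset.mem_range.2 hj)
    linarith
  obtain ⟨rep, hrep⟩ := exists_rep2 D.F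
  choose t ht0 htr htq using param2 D.F (AlgebraicClosure K) rep hrep
  have htF : ∀ q, (t q) ^ 2 ∈ D.F := by
    intro q
    obtain ⟨x, hx⟩ := htr q
    rw [← hx]
    exact x.2
  choose j hjN hj using fun q => hpg (t q) (ht0 q) (htF q)
  have hs0 : ∀ q, t q * p (j q) ≠ 0 := fun q => mul_ne_zero (ht0 q) (hp1 _).1
  have hok : ∀ q, D.Ok (t q * p (j q)) := fun q =>
    Tw.ok_of_sq (hs0 q) (by rw [mul_pow]; exact mul_mem (htF q) (hp1 _).2.1)
  obtain ⟨k, hk⟩ := Pool.Agent.TH263.J3086.discQuad D.F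
  obtain ⟨k', hk'⟩ := Pool.Agent.TH263.J3086.discQuad L
  have hdL : 0 < dsc L := lt_of_lt_of_le one_pos (one_le_dsc L)
  refine ⟨hnF, 4 ^ Module.finrank ℚ L * dsc L ^ 2 * (4 ^ Module.finrank ℚ D.F * P) ^ r₀,
    2 ^ Nat.card G * (N + 1), by positivity, by positivity, ⟨r₀, hr₀.trans hcard⟩, ?_⟩
  intro X Y hX hY hXY
  obtain ⟨C, hC⟩ := quadUnif (Module.finrank ℚ D.F)
  have hQf := (hC D.F (AlgebraicClosure K) rfl Y hY).1
  have hTf := CS_finite K hn G X
  rw [Set.ncard_eq_toFinset_card _ hQf, Set.ncard_eq_toFinset_card _ hTf]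
  let f : IntermediateField D.F (AlgebraicClosure K) →
      ℕ × IntermediateField K (AlgebraicClosure K) := fun q =>
    (j q, FE (Tw.ps D (t q * p (j q)) (hok q)) x₀)
  have hcardS : (Finset.univ : Finset (Set G)).card = 2 ^ Nat.card G := by
    rw [Finset.card_univ, Fintype.card_set, Nat.card_eq_fintype_card]
  -- fibres
  have hfib : hQf.toFinset.card ≤ 2 ^ Nat.card G * (hQf.toFinset.image f).card := by
    apply Finset.card_le_mul_card_image
    intro b hb
    obtain ⟨q₁, hq₁, rfl⟩ := Finset.mem_image.1 hb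
    rw [← hcardS]
    refine Finset.card_le_card_of_injOn (fun q => Sx D.ρ (t q₁ * t q))
      (fun q _ => Finset.mem_univ _) ?_
    have hmem : ∀ q, f q = f q₁ → t q₁ * t q ∈ L := by
      intro q h
      have h1 : j q = j q₁ := congrArg Prod.fst h
      have h2 : FE (Tw.ps D (t q * p (j q)) (hok q)) x₀ =
        FE (Tw.ps D (t q₁ * p (j q₁)) (hok q₁)) x₀ := congrArg Prod.snd h
      have h3 := Tw.FE_eq hL (hok q) (hok q₁) hx₀ h2
      rw [h1] at h3
      have h4 : (p (j q₁)) ^ 2 ∈ L := hFL (hp1 _).2.1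
      have h5 : t q₁ * t q = (t q * p (j q₁) * (t q₁ * p (j q₁))) * ((p (j q₁)) ^ 2)⁻¹ := by
        have := (hp1 (j q₁)).1
        field_simp
      rw [h5]
      exact mul_mem h3 (inv_mem h4)
    have hok2 : ∀ q, D.Ok (t q₁ * t q) := fun q =>
      Tw.ok_of_sq (mul_ne_zero (ht0 _) (ht0 _)) (by
        rw [mul_pow]; exact mul_mem (htF _) (htF _))
    intro q hq q' hq' h
    have hq2 := Finset.mem_filter.1 hq
    have hq2' := Finset.mem_filter.1 hq'
    have h1 := Tw.Sx_inj' hL (hmem q hq2.2) (hmem q' hq2'.2) (hok2 q) (hok2 q') h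
    have h2 : t q * t q' ∈ D.F := by
      have h3 : t q * t q' = (t q₁ * t q * (t q₁ * t q')) * ((t q₁) ^ 2)⁻¹ := by
        have := ht0 q₁
        field_simp
      rw [h3]
      exact mul_mem h1 (inv_mem (htF q₁))
    rw [(htq q ((hQf.mem_toFinset.1 hq2.1).1)).1, (htq q' ((hQf.mem_toFinset.1 hq2'.1).1)).1]
    exact adj_eq2 (ht0 q) (ht0 q') ⟨⟨_, h2⟩, rfl⟩
  have himg : hQf.toFinset.image f ⊆ (Finset.range (N + 1)) ×ˢ hTf.toFinset := by
    intro b hb
    obtain ⟨q, hq', rfl⟩ := Finset.mem_image.1 hb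
    rw [Finset.mem_product]
    refine ⟨Finset.mem_range.2 (by have := hjN q; simp only [f]; omega), ?_⟩
    rw [Set.Finite.mem_toFinset] at hq' ⊢
    obtain ⟨h1, h2, Cl, α, h3, h4⟩ := htq q hq'.1
    obtain ⟨Nk, hNk, hker⟩ := Tw.ker_ex hL (hok q)
    have hrange := Tw.ps_range (hok q) (hj q)
    have htr : ∀ i, ∃ σ, Tw.ps D (t q * p (j q)) (hok q) σ x₀ = i := by
      intro i
      obtain ⟨g, hg, h5⟩ := hG x₀ i
      rw [← hrange] at hg
      obtain ⟨σ, rfl⟩ := hg
      exact ⟨σ, h5⟩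
    have hfr := finrank_FE hker htr
    have hgp := gp_FE hker htr
    rw [hrange] at hgp
    have hle := Tw.FE_le_t hL (hok q) hx₀
    have hEf : FiniteDimensional K (FE (Tw.ps D (t q * p (j q)) (hok q)) x₀) :=
      FiniteDimensional.of_finrank_pos (by omega)
    have hnE : NumberField (FE (Tw.ps D (t q * p (j q)) (hok q)) x₀) := nf_of_fd _
    have hqQ : adjoin D.F {t q} ∈ QS D.F (AlgebraicClosure K) Y := by
      rw [← h1]; exact hq'
    have hsL : t q * p (j q) ∉ L := by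
      intro hmem
      obtain ⟨σ, h5, h6, -⟩ := hj q
      have h7 := (IntermediateField.mem_fixingSubgroup_iff _ _).1 ((hL σ).2 h5) _ hmem
      rw [h6] at h7
      exact Tw.T_ne (D := D) (hok q) 1 h7
    obtain ⟨m, hm1, hm2⟩ := disc_E2 D.F L hFL k hk k' hk' α (rep Cl) (t q) Y h3 h4 h2 hqQ
      (π (j q)) (hπ0 _) (p (j q)) (hπp _) hsL _ hle hEf r₀ hr₀
    refine ⟨hfr, hgp, hnE, ?_⟩
    rw [hfr, hcard] at hm1
    have h5 := hXY m r₀ hm1 (hr₀.trans hcard)
    have h6 : dsc (FE (Tw.ps D (t q * p (j q)) (hok q)) x₀) ^ m ≤ X ^ m := by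
      refine hm2.trans (le_trans ?_ h5)
      have h7 : (4 ^ Module.finrank ℚ D.F * Y *
          (Ideal.absNorm (Ideal.span {π (j q)}) : ℝ)) ^ r₀ ≤
          (4 ^ Module.finrank ℚ D.F * Y * P) ^ r₀ := by
        apply pow_le_pow_left₀ (by positivity)
        exact mul_le_mul_of_nonneg_left (hP _ (hjN q)) (by positivity)
      calc _ ≤ 4 ^ Module.finrank ℚ L * dsc L ^ 2 * (4 ^ Module.finrank ℚ D.F * Y * P) ^ r₀ :=
            mul_le_mul_of_nonneg_left h7 (by positivity)
        _ = _ := by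
            rw [mul_assoc (4 ^ Module.finrank ℚ L * dsc L ^ 2), ← mul_pow]
            ring
    have hm0 : m ≠ 0 := by
      rintro rfl
      rw [mul_zero] at hm1
      omega
    have h8 := (pow_le_pow_iff_left₀ (le_trans zero_le_one (one_le_dsc _)) hX hm0).1 h6
    rw [← dsc_eq]
    refine h8.trans ?_
    have h9 : (1 : ℝ) ≤ ((|discr K| : ℤ) : ℝ) := by
      exact_mod_cast Int.one_le_abs (discr_ne_zero K)
    exact le_mul_of_one_le_right hX (one_le_pow₀ h9)
  calc hQf.toFinset.card ≤ 2 ^ Nat.card G * (hQf.toFinset.image f).card := hfib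
    _ ≤ 2 ^ Nat.card G * ((Finset.range (N + 1)) ×ˢ hTf.toFinset).card :=
        Nat.mul_le_mul_left _ (Finset.card_le_card himg)
    _ = _ := by
        rw [Finset.card_product, Finset.card_range]
        ring

end

end Pool.Agent.H96S.CI
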