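import Pool.Agent.H96S.CI.E3

/-!
# The lower bound, general form
-/

set_option autoImplicit false
set_option linter.unusedSectionVars false
set_option synthInstance.maxHeartbeats 400000

open NumberField IntermediateField Pool.Agent.TH444.ML Filter Topology

namespace Pool.Agent.H96S.CI

theorem lower2 (K : Type) [Field K] [NumberField K] {n : ℕ} {G : Subgroup (Equiv.Perm (Fin n))}
    (D : Tw K (AlgebraicClosure K) G)
    {L : IntermediateField K (AlgebraicClosure K)} [FiniteDimensional K L] [IsGalois K L]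
    (hL : ∀ σ, σ ∈ L.fixingSubgroup ↔ D.ρ σ = 1) (hG : ∀ i j : Fin n, ∃ g ∈ G, g i = j)
    {x₀ : Fin n} (hx₀ : D.V x₀ = D.v) (b : ℕ) (hb : Module.finrank K D.F * b = n) :
    ∃ c : ℝ, 0 < c ∧ ∃ X₀ : ℝ, ∀ X : ℝ, X₀ ≤ X →
      c * X ^ ((2 : ℝ) / b) ≤ Set.ncard (CS K n G X) := by
  classical
  obtain ⟨hnF, B, A, hB, hA, ⟨r₀, hr₀⟩, hstep⟩ := step2 K D hL hG hx₀
  have hn : 0 < n := lt_of_le_of_lt (Nat.zero_le _) x₀.2
  have hb0 : 0 < b := by
    rcases Nat.eq_zero_or_pos b with rfl | h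
    · rw [mul_zero] at hb; omega
    · exact h
  have hd0 : 0 < Module.finrank K D.F := by
    rcases Nat.eq_zero_or_pos (Module.finrank K D.F) with h | h
    · rw [h, zero_mul] at hb; omega
    · exact h
  have hg : 0 < Nat.card G := Nat.card_pos
  have hr0 : 0 < r₀ := by
    rcases Nat.eq_zero_or_pos r₀ with rfl | h
    · rw [mul_zero] at hr₀; omega
    · exact h
  have hrR : (0 : ℝ) < r₀ := by exact_mod_cast hr0
  have hbR : (0 : ℝ) < b := by exact_mod_cast hb0
  obtain ⟨β, hβ, hβB⟩ : ∃ β : ℝ, 0 < β ∧ B * β ^ r₀ = 1 := by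
    refine ⟨(B⁻¹) ^ ((1 : ℝ) / r₀), by positivity, ?_⟩
    rw [← Real.rpow_natCast, ← Real.rpow_mul (by positivity), one_div, inv_mul_cancel₀ hrR.ne',
      Real.rpow_one, mul_inv_cancel₀ hB.ne']
  obtain ⟨c, hc⟩ := quadLim rest D.F (AlgebraicClosure K)
  have hc0 : 0 < c := by
    have h1 : 0 ≤ c := by
      refine ge_of_tendsto hc ?_
      filter_upwards [eventually_gt_atTop (0 : ℝ)] with Y hY
      positivity
    rcases h1.lt_or_eq with h2 | h2
    · exact h2
    · exact absurd (h2 ▸ hc) (quadPos D.F (AlgebraicClosure K))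
  have hpow : Tendsto (fun X : ℝ => X ^ ((2 : ℝ) / b)) atTop atTop :=
    tendsto_rpow_atTop (by positivity)
  have hYt : Tendsto (fun X : ℝ => β * X ^ ((2 : ℝ) / b)) atTop atTop :=
    hpow.const_mul_atTop hβ
  have hev1 := hYt.eventually ((hc.eventually (lt_mem_nhds (by linarith : c / 2 < c))).and
    (eventually_gt_atTop (0 : ℝ)))
  obtain ⟨X₀, hX₀⟩ := eventually_atTop.1 (hev1.and (eventually_gt_atTop (0 : ℝ)))
  have hAR : (0 : ℝ) < A := by exact_mod_cast hA
  refine ⟨c * β / (2 * A), by positivity, X₀, fun X hX => ?_⟩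
  obtain ⟨⟨h1, h2⟩, h4⟩ := hX₀ X hX
  have h5 := hstep X (β * X ^ ((2 : ℝ) / b)) h4.le h2.le (by
    intro m r hm hr
    have hrr : r = r₀ := Nat.eq_of_mul_eq_mul_left hd0 (hr.trans hr₀.symm)
    subst hrr
    rw [mul_pow, ← mul_assoc, hβB, one_mul, ← Real.rpow_natCast, ← Real.rpow_mul h4.le]
    have hbm : b * m = 2 * r := by
      apply Nat.eq_of_mul_eq_mul_left hd0
      calc Module.finrank K D.F * (b * m) = (Module.finrank K D.F * b) * m := by ring
        _ = n * m := by rw [hb]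
        _ = 2 * Nat.card G := hm
        _ = 2 * (Module.finrank K D.F * r) := by rw [hr]
        _ = _ := by ring
    have hmR : (b : ℝ) * m = 2 * r := by exact_mod_cast hbm
    have h6 : (2 : ℝ) / b * (r : ℝ) = m := by
      field_simp
      linarith
    rw [h6, Real.rpow_natCast])
  have h6 : (Set.ncard (QS D.F (AlgebraicClosure K) (β * X ^ ((2 : ℝ) / b))) : ℝ) ≤
      A * (Set.ncard (CS K n G X) : ℝ) := by exact_mod_cast h5
  rw [lt_div_iff₀ h2] at h1
  rw [div_mul_eq_mul_div, div_le_iff₀ (by positivity)]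
  nlinarith [h1.le.trans h6]

end Pool.Agent.H96S.CI
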