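import Pool.Agent.H96S.CI.F

/-!
# Realisation from the counting set, indices, wreath products
-/

set_option autoImplicit false
set_option linter.unusedSectionVars false
set_option synthInstance.maxHeartbeats 400000

open NumberField IntermediateField Pool.Agent.TH444.ML Filter Topology

namespace Pool.Agent.H96S.CI

section conv

variable (K : Type) [Field K] [NumberField K]

/-- a field with group `G` gives a Galois extension with group `G` -/
theorem gal_of_CS {n : ℕ} (hn : 0 < n) {G : Subgroup (Equiv.Perm (Fin n))} {X : ℝ}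
    (h : (CS K n G X).Nonempty) : (Gal K (AlgebraicClosure K) G).Nonempty := by
  obtain ⟨E, hE, ⟨e, he⟩, -⟩ := h
  have hfE : FiniteDimensional K E := FiniteDimensional.of_finrank_pos (by omega)
  let M := IntermediateField.normalClosure K E (AlgebraicClosure K)
  have hMf : FiniteDimensional K M := normalClosure.is_finiteDimensional K E (AlgebraicClosure K)
  have hMn : Normal K M := normalClosure.normal K E (AlgebraicClosure K)
  have hMg : IsGalois K M := ⟨⟩
  let θ₀ : (AlgebraicClosure K ≃ₐ[K] AlgebraicClosure K) →* Equiv.Perm (Fin n) :=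
    (e.permCongrHom.toMonoidHom).comp (Pool.Agent.TH365.J3099.act E)
  have hθ : ∀ σ (φ : E →ₐ[K] AlgebraicClosure K), θ₀ σ (e φ) = e (σ.toAlgHom.comp φ) := by
    intro σ φ
    show e (Pool.Agent.TH365.J3099.act E σ (e.symm (e φ))) = _
    rw [Equiv.symm_apply_apply]
    rfl
  have hmem : ∀ σ, θ₀ σ ∈ G := fun σ => (he _).2 ⟨σ, fun φ => (hθ σ φ).symm⟩
  let θ : (AlgebraicClosure K ≃ₐ[K] AlgebraicClosure K) →* G := θ₀.codRestrict G hmem
  have hsurj : Function.Surjective θ := by
    rintro ⟨π, hπ⟩
    obtain ⟨σ, hσ⟩ := (he π).1 hπ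
    refine ⟨σ, Subtype.ext ?_⟩
    show θ₀ σ = π
    ext1 j
    obtain ⟨φ, rfl⟩ := e.surjective j
    rw [hθ, hσ]
  have hker : θ.ker = (AlgEquiv.restrictNormalHom (F := K) (K₁ := AlgebraicClosure K) M).ker := by
    rw [M.restrictNormalHom_ker, ← Pool.Agent.TH365.J3099.ker_act]
    ext σ
    rw [MonoidHom.mem_ker, MonoidHom.mem_ker]
    have h1 : θ σ = 1 ↔ θ₀ σ = 1 := ⟨fun h => congrArg Subtype.val h, fun h => Subtype.ext h⟩
    rw [h1]
    show e.permCongrHom (Pool.Agent.TH365.J3099.act E σ) = 1 ↔ _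
    rw [MulEquiv.map_eq_one_iff]
  have hs2 : Function.Surjective
      (AlgEquiv.restrictNormalHom (F := K) (K₁ := AlgebraicClosure K) M) :=
    AlgEquiv.restrictNormalHom_surjective _
  refine ⟨M, hMf, hMg, ⟨?_⟩⟩
  exact (QuotientGroup.quotientKerEquivOfSurjective _ hs2).symm.trans
    ((QuotientGroup.quotientMulEquivOfEq hker.symm).trans
      (QuotientGroup.quotientKerEquivOfSurjective _ hsurj))

end conv

section index

theorem ind_z {n : ℕ} {G : Subgroup (Equiv.Perm (Fin n))} (hG : ∀ i j : Fin n, ∃ g ∈ G, g i = j)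
    (z : G) (hz : ∀ g, z * g = g * z) (hz2 : z * z = 1) (hz1 : z ≠ 1) :
    2 * ind z.1 = n := by
  classical
  have hfix : ∀ i, z.1 i ≠ i := by
    intro i hi
    apply hz1
    apply Subtype.ext
    ext1 j
    obtain ⟨g, hg, rfl⟩ := hG i j
    have h1 := congrArg (fun w : G => w.1 i) (hz ⟨g, hg⟩)
    have h2 : z.1 (g i) = g (z.1 i) := h1
    rw [h2, hi]
    rfl
  have hord : orderOf z.1 = 2 := by
    refine orderOf_eq_prime ?_ ?_
    · rw [pow_two]
      exact congrArg Subtype.val hz2
    · intro h
      exact hz1 (Subtype.ext h)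
  have hc : ∀ k ∈ z.1.cycleType, k = 2 := by
    intro k hk
    have h1 := Equiv.Perm.dvd_of_mem_cycleType hk
    have h2 := Equiv.Perm.two_le_of_mem_cycleType hk
    rw [hord] at h1
    exact le_antisymm (Nat.le_of_dvd (by norm_num) h1) h2
  have hrep := Multiset.eq_replicate_card.2 hc
  have hsum : z.1.cycleType.sum = n := by
    rw [Equiv.Perm.sum_cycleType]
    have : z.1.support = Finset.univ := by
      ext i
      simp [hfix i]
    rw [this, Finset.card_univ, Fintype.card_fin]
  have h2 : z.1.cycleType.sum = Multiset.card z.1.cycleType * 2 := by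
    conv_lhs => rw [hrep]
    rw [Multiset.sum_replicate, smul_eq_mul]
  unfold ind
  omega

theorem ind_regular {n : ℕ} {G : Subgroup (Equiv.Perm (Fin n))}
    (hG : ∀ i j : Fin n, ∃ g ∈ G, g i = j) (hc : Nat.card G = n) (g : Equiv.Perm (Fin n))
    (hg : g ∈ G) (hg1 : g ≠ 1) : n ≤ 2 * ind g := by
  classical
  have hfix : ∀ i, g i ≠ i := by
    intro i hi
    have hsurj : Function.Surjective (fun h : G => h.1 i) := by
      intro j
      obtain ⟨h, hh, rfl⟩ := hG i j
      exact ⟨⟨h, hh⟩, rfl⟩
    have hbij : Function.Bijective (fun h : G => h.1 i) := by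
      rw [Nat.bijective_iff_surjective_and_card]
      exact ⟨hsurj, by rw [hc, Nat.card_fin]⟩
    have h1 : (⟨g, hg⟩ : G) = 1 := hbij.1 (by show g i = i; exact hi)
    exact hg1 (congrArg Subtype.val h1)
  have hsum : g.cycleType.sum = n := by
    rw [Equiv.Perm.sum_cycleType]
    have : g.support = Finset.univ := by
      ext i
      simp [hfix i]
    rw [this, Finset.card_univ, Fintype.card_fin]
  have h2 := two_card_le g
  unfold ind
  omega

end index

section wreath

open Pool.Agent.H391R2 (Wr)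

theorem wr_central {A : Type} [Group A] (m : ℕ) (hm : 0 < m) (c : A) (hc : ∀ x, c * x = x * c)
    (hc2 : c * c = 1) (hc1 : c ≠ 1) :
    ∃ z : Wr A m, (∀ w, z * w = w * z) ∧ z * z = 1 ∧ z ≠ 1 := by
  refine ⟨SemidirectProduct.inl (fun _ => c), ?_, ?_, ?_⟩
  · intro w
    apply SemidirectProduct.ext
    · funext i
      rw [Pool.Agent.H391R2.wr_mul_left, Pool.Agent.H391R2.wr_mul_left]
      simp [hc]
    · rw [Pool.Agent.H391R2.wr_mul_right, Pool.Agent.H391R2.wr_mul_right]
      simp
  · rw [← map_mul]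
    have : (fun _ : Fin m => c) * (fun _ => c) = 1 := by
      funext i
      exact hc2
    rw [this, map_one]
  · intro h
    have h1 := SemidirectProduct.inl_injective (h.trans (map_one SemidirectProduct.inl).symm)
    exact hc1 (congrFun h1 ⟨0, hm⟩)

end wreath

end Pool.Agent.H96S.CI
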