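import Pool.Agent.H96S.CI.F3
import Pool.Agent.H96S.CI.G

/-!
# The data for the twisting, from an involution with disjoint conjugates
-/

set_option autoImplicit false
set_option linter.unusedSectionVars false
set_option synthInstance.maxHeartbeats 400000

open NumberField IntermediateField Pool.Agent.TH444.ML Filter Topology

namespace Pool.Agent.H96S.CI

/-- `v` is an involution, and distinct conjugates of `v` have disjoint supports -/
def DC {n : ℕ} {G : Subgroup (Equiv.Perm (Fin n))} (v : G) : Prop :=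
  v * v = 1 ∧ v ≠ 1 ∧ ∀ g : G, g * v * g⁻¹ = v ∨ ∀ x, v.1 x = x ∨ (g * v * g⁻¹).1 x = x

section

variable {n : ℕ} {G : Subgroup (Equiv.Perm (Fin n))}

theorem exists_tw {K Ω : Type} [Field K] [Field Ω] [Algebra K Ω]
    (hG : ∀ i j : Fin n, ∃ g ∈ G, g i = j) {v : G} (hv : DC v) (ρ : (Ω ≃ₐ[K] Ω) →* G)
    (hρ : Function.Surjective ρ) :
    ∃ (D : Tw K Ω G) (x₀ : Fin n), D.V x₀ = D.v ∧ D.v = v ∧ D.ρ = ρ := by
  classical
  obtain ⟨hv2, hv1, hdis⟩ := hv
  obtain ⟨x₀, hx₀⟩ : ∃ x₀, v.1 x₀ ≠ x₀ := by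
    by_contra hcon
    push Not at hcon
    exact hv1 (Subtype.ext (Equiv.ext hcon))
  have hg : ∀ x, ∃ g : G, g.1 x₀ = x := by
    intro x
    obtain ⟨g, hg, h⟩ := hG x₀ x
    exact ⟨⟨g, hg⟩, h⟩
  choose γ hγ using hg
  have hinv : ∀ x, (γ x)⁻¹.1 x = x₀ := by
    intro x
    show (γ x).1.symm x = x₀
    rw [Equiv.symm_apply_eq, hγ]
  have hκ : ∀ c : G, ∃ σ : Ω ≃ₐ[K] Ω, (IsConj v c → ρ σ * v * (ρ σ)⁻¹ = c) ∧
      (c = v → σ = 1) := by
    intro c
    by_cases h1 : c = v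
    · exact ⟨1, fun _ => by rw [map_one, one_mul, inv_one, mul_one, h1], fun _ => rfl⟩
    · by_cases h2 : IsConj v c
      · obtain ⟨g, hg⟩ := isConj_iff.1 h2
        obtain ⟨σ, rfl⟩ := hρ g
        exact ⟨σ, fun _ => hg, fun h => absurd h h1⟩
      · exact ⟨1, fun h => absurd h h2, fun h => absurd h h1⟩
  choose κ hκ1 hκ2 using hκ
  have hVu : ∀ (c : G) x, IsConj v c → c.1 x ≠ x → c = γ x * v * (γ x)⁻¹ := by
    intro c x hc hx
    obtain ⟨h, rfl⟩ := isConj_iff.1 hc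
    have h1 : ((γ x)⁻¹ * h) * v * ((γ x)⁻¹ * h)⁻¹ = v := by
      rcases hdis ((γ x)⁻¹ * h) with h2 | h2
      · exact h2
      · exfalso
        rcases h2 x₀ with h3 | h3
        · exact hx₀ h3
        · apply hx
          have h4 : ((γ x)⁻¹ * h * v * ((γ x)⁻¹ * h)⁻¹) = (γ x)⁻¹ * (h * v * h⁻¹) * γ x := by
            group
          rw [h4] at h3
          have h5 : (γ x)⁻¹.1 ((h * v * h⁻¹).1 ((γ x).1 x₀)) = x₀ := h3
          rw [hγ] at h5
          have h6 : (γ x).1 ((γ x)⁻¹.1 ((h * v * h⁻¹).1 x)) = (γ x).1 x₀ := by rw [h5]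
          rw [hγ] at h6
          have h7 : (γ x).1 ((γ x)⁻¹.1 ((h * v * h⁻¹).1 x)) = (h * v * h⁻¹).1 x :=
            Equiv.apply_symm_apply (γ x).1 _
          rw [← h7]
          exact h6
    have h8 : h * v * h⁻¹ = γ x * (((γ x)⁻¹ * h) * v * ((γ x)⁻¹ * h)⁻¹) * (γ x)⁻¹ := by group
    rw [h8, h1]
  let D : Tw K Ω G :=
    { ρ := ρ
      v := v
      V := fun x => γ x * v * (γ x)⁻¹
      κ := κ
      hρ := hρ
      hv2 := hv2
      hv1 := hv1
      hV1 := fun x => isConj_iff.2 ⟨γ x, rfl⟩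
      hV2 := by
        intro x h
        have h1 : (γ x).1 (v.1 ((γ x)⁻¹.1 x)) = x := h
        rw [hinv] at h1
        apply hx₀
        apply (γ x).1.injective
        rw [h1, hγ]
      hVu := hVu
      hκ := hκ1
      hκv := hκ2 v rfl }
  exact ⟨D, x₀, (hVu v x₀ (IsConj.refl _) hx₀).symm, rfl, rfl⟩

theorem index_F {K Ω : Type} [Field K] [Field Ω] [Algebra K Ω] [IsGalois K Ω] [CharZero Ω]
    (D : Tw K Ω G) {L : IntermediateField K Ω} [FiniteDimensional K L]
    (hL : ∀ σ, σ ∈ L.fixingSubgroup ↔ D.ρ σ = 1) :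
    Module.finrank K D.F * D.v.1.support.card = n := by
  classical
  have hfin : Finite G := inferInstance
  have : Fintype G := Fintype.ofFinite G
  rw [finrank_eq_fixingSubgroup_index, Tw.fix_F hL]
  let act : MulAction (Ω ≃ₐ[K] Ω) G :=
    { smul := fun σ g => D.ρ σ * g * (D.ρ σ)⁻¹
      one_smul := fun g => by
        show D.ρ 1 * g * (D.ρ 1)⁻¹ = g
        rw [map_one, one_mul, inv_one, mul_one]
      mul_smul := fun σ τ g => by
        show D.ρ (σ * τ) * g * (D.ρ (σ * τ))⁻¹ = D.ρ σ * (D.ρ τ * g * (D.ρ τ)⁻¹) * (D.ρ σ)⁻¹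
        rw [map_mul]; group }
  have hU : D.U = MulAction.stabilizer (Ω ≃ₐ[K] Ω) D.v := by
    ext σ
    rw [D.mem_U, MulAction.mem_stabilizer_iff]
    show _ ↔ D.ρ σ * D.v * (D.ρ σ)⁻¹ = D.v
    rw [mul_inv_eq_iff_eq_mul]
  have horb : MulAction.orbit (Ω ≃ₐ[K] Ω) D.v = {c | IsConj D.v c} := by
    ext c
    constructor
    · rintro ⟨σ, rfl⟩
      exact isConj_iff.2 ⟨D.ρ σ, rfl⟩
    · intro hc
      obtain ⟨g, hg⟩ := isConj_iff.1 hc
      obtain ⟨σ, rfl⟩ := D.hρ g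
      exact ⟨σ, hg⟩
  rw [hU, MulAction.index_stabilizer, horb]
  have h1 : (Finset.univ : Finset (Fin n)).card =
      ∑ c ∈ (Finset.univ.filter (fun c : G => IsConj D.v c)),
        (Finset.univ.filter (fun x => D.V x = c)).card := by
    apply Finset.card_eq_sum_card_fiberwise
    intro x _
    simp only [Finset.coe_filter, Finset.mem_univ, true_and, Set.mem_ofPred_eq]
    exact D.hV1 x
  have h2 : ∀ c ∈ (Finset.univ.filter (fun c : G => IsConj D.v c)),
      (Finset.univ.filter (fun x => D.V x = c)).card = D.v.1.support.card := by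
    intro c hc
    rw [Finset.mem_filter] at hc
    have h3 : Finset.univ.filter (fun x => D.V x = c) = c.1.support := by
      ext x
      rw [Finset.mem_filter, Equiv.Perm.mem_support]
      constructor
      · rintro ⟨-, rfl⟩
        exact D.hV2 x
      · intro h
        exact ⟨Finset.mem_univ _, (D.hVu c x hc.2 h).symm⟩
    rw [h3]
    obtain ⟨g, rfl⟩ := isConj_iff.1 hc.2
    exact Equiv.Perm.card_support_conj
  rw [Finset.sum_congr rfl h2, Finset.sum_const, smul_eq_mul, Finset.card_univ,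
    Fintype.card_fin] at h1
  rw [Set.ncard_eq_toFinset_card']
  conv_rhs => rw [h1]
  congr 2
  ext c
  simp

theorem two_ind {v : Equiv.Perm (Fin n)} (hv2 : v * v = 1) (hv1 : v ≠ 1) :
    2 * ind v = v.support.card := by
  classical
  have hord : orderOf v = 2 := by
    refine orderOf_eq_prime ?_ hv1
    rw [pow_two]
    exact hv2
  have hc : ∀ k ∈ v.cycleType, k = 2 := by
    intro k hk
    have h1 := Equiv.Perm.dvd_of_mem_cycleType hk
    have h2 := Equiv.Perm.two_le_of_mem_cycleType hk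
    rw [hord] at h1
    exact le_antisymm (Nat.le_of_dvd (by norm_num) h1) h2
  have hrep := Multiset.eq_replicate_card.2 hc
  have h2 : v.cycleType.sum = Multiset.card v.cycleType * 2 := by
    conv_lhs => rw [hrep]
    rw [Multiset.sum_replicate, smul_eq_mul]
  rw [← Equiv.Perm.sum_cycleType]
  unfold ind
  omega

/-- the lower bound -/
theorem lower3 (K : Type) [Field K] [NumberField K]
    (hG : ∀ i j : Fin n, ∃ g ∈ G, g i = j) {v : G} (hv : DC v)
    (hne : (Gal K (AlgebraicClosure K) G).Nonempty) :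
    ∃ c : ℝ, 0 < c ∧ ∃ X₀ : ℝ, ∀ X : ℝ, X₀ ≤ X →
      c * X ^ ((1 : ℝ) / (ind v.1 : ℕ)) ≤ Set.ncard (CS K n G X) := by
  classical
  obtain ⟨L, hfd, hgal, ⟨ρ₀⟩⟩ := hne
  let ρ : (AlgebraicClosure K ≃ₐ[K] AlgebraicClosure K) →* G :=
    ρ₀.toMonoidHom.comp (AlgEquiv.restrictNormalHom L)
  have hL : ∀ σ, σ ∈ L.fixingSubgroup ↔ ρ σ = 1 := by
    intro σ
    rw [← L.restrictNormalHom_ker, MonoidHom.mem_ker]
    show _ ↔ ρ₀ (AlgEquiv.restrictNormalHom L σ) = 1
    rw [MulEquiv.map_eq_one_iff]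
  have hρ : Function.Surjective ρ := by
    intro g
    obtain ⟨σ, hσ⟩ := AlgEquiv.restrictNormalHom_surjective (F := K) (K₁ := L)
      (AlgebraicClosure K) (ρ₀.symm g)
    refine ⟨σ, ?_⟩
    show ρ₀ (AlgEquiv.restrictNormalHom L σ) = g
    rw [hσ, MulEquiv.apply_symm_apply]
  obtain ⟨D, x₀, h1, h2, h3⟩ := exists_tw hG hv ρ hρ
  have hL' : ∀ σ, σ ∈ L.fixingSubgroup ↔ D.ρ σ = 1 := by
    rw [h3]; exact hL
  have h4 := index_F D hL'
  have h5 := two_ind (congrArg Subtype.val hv.1) (fun h => hv.2.1 (Subtype.ext h))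
  rw [h2] at h4
  have h6 := lower2 K D hL' hG h1 _ h4
  have h7 : (2 : ℝ) / (v.1.support.card : ℕ) = (1 : ℝ) / (ind v.1 : ℕ) := by
    have h8 : ((v.1.support.card : ℕ) : ℝ) = 2 * (ind v.1 : ℕ) := by exact_mod_cast h5.symm
    rw [h8, ← div_div, div_self (two_ne_zero)]
  rw [h7] at h6
  exact h6

end

end Pool.Agent.H96S.CI
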