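import Pool.Agent.H96S.CI.A

/-!
# Twisting by the quadratic characters of a larger field: the permutations
-/

set_option autoImplicit false
set_option linter.unusedSectionVars false

open IntermediateField

namespace Pool.Agent.H96S.CI

/-- the data for the twisting: `v` is an involution, distinct conjugates of `v` have disjoint
supports, `V x` is the conjugate of `v` which moves `x` -/
structure Tw (K Ω : Type) [Field K] [Field Ω] [Algebra K Ω] {n : ℕ}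
    (G : Subgroup (Equiv.Perm (Fin n))) where
  ρ : (Ω ≃ₐ[K] Ω) →* G
  v : G
  V : Fin n → G
  κ : G → (Ω ≃ₐ[K] Ω)
  hρ : Function.Surjective ρ
  hv2 : v * v = 1
  hv1 : v ≠ 1
  hV1 : ∀ x, IsConj v (V x)
  hV2 : ∀ x, (V x).1 x ≠ x
  hVu : ∀ c x, IsConj v c → c.1 x ≠ x → c = V x
  hκ : ∀ c, IsConj v c → ρ (κ c) * v * (ρ (κ c))⁻¹ = c
  hκv : κ v = 1

namespace Tw

section

variable {K Ω : Type} [Field K] [Field Ω] [Algebra K Ω] [CharZero Ω] {n : ℕ}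
  {G : Subgroup (Equiv.Perm (Fin n))} (D : Tw K Ω G)

theorem sqc {c : G} (hc : IsConj D.v c) : c * c = 1 := by
  obtain ⟨g, rfl⟩ := isConj_iff.1 hc
  have := D.hv2
  calc g * D.v * g⁻¹ * (g * D.v * g⁻¹) = g * (D.v * D.v) * g⁻¹ := by group
    _ = 1 := by rw [this]; group

theorem conj_mem {c : G} (hc : IsConj D.v c) (g : G) : IsConj D.v (g * c * g⁻¹) :=
  hc.trans (isConj_iff.2 ⟨g, rfl⟩)

theorem V_conj (g : G) (x : Fin n) : D.V (g.1 x) = g * D.V x * g⁻¹ := by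
  symm
  apply D.hVu _ _ (D.conj_mem (D.hV1 x) g)
  show g.1 ((D.V x).1 ((g.1).symm (g.1 x))) ≠ g.1 x
  rw [Equiv.symm_apply_apply]
  exact fun h => D.hV2 x (g.1.injective h)

theorem V_V (x : Fin n) : D.V ((D.V x).1 x) = D.V x := by
  symm
  apply D.hVu _ _ (D.hV1 x)
  exact fun h => D.hV2 x ((D.V x).1.injective h)

theorem VV_x (x : Fin n) : (D.V x).1 ((D.V x).1 x) = x := by
  have h := congrArg (fun w : G => w.1 x) (D.sqc (D.hV1 x))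
  exact h

/-- the condition on the generator `t` of a quadratic extension -/
def Ok (t : Ω) : Prop := t ≠ 0 ∧ ∀ σ, D.ρ σ * D.v = D.v * D.ρ σ → σ t = t ∨ σ t = -t

variable {D} {t : Ω} (ht : D.Ok t)

include ht in
theorem T_ne (τ : Ω ≃ₐ[K] Ω) : -(τ t) ≠ τ t := by
  intro h
  have h2 : (2 : Ω) * τ t = 0 := by linear_combination -h
  rcases mul_eq_zero.1 h2 with h3 | h3
  · exact two_ne_zero h3
  · exact ht.1 ((map_eq_zero τ).1 h3)

include ht in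
theorem T_sign (σ : Ω ≃ₐ[K] Ω) {c : G} (hc : IsConj D.v c) :
    σ (D.κ c t) = D.κ (D.ρ σ * c * (D.ρ σ)⁻¹) t ∨
      σ (D.κ c t) = -D.κ (D.ρ σ * c * (D.ρ σ)⁻¹) t := by
  have h1 := D.hκ c hc
  have h2 := D.hκ _ (D.conj_mem hc (D.ρ σ))
  set c' := D.ρ σ * c * (D.ρ σ)⁻¹ with hc'
  have h3 : D.ρ ((D.κ c')⁻¹ * σ * D.κ c) * D.v = D.v * D.ρ ((D.κ c')⁻¹ * σ * D.κ c) := by
    rw [map_mul, map_mul, map_inv]
    have h4 : D.ρ (D.κ c) * D.v = c * D.ρ (D.κ c) := by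
      rw [← mul_inv_eq_iff_eq_mul]; exact h1
    have h5 : D.ρ (D.κ c') * D.v = c' * D.ρ (D.κ c') := by
      rw [← mul_inv_eq_iff_eq_mul]; exact h2
    have h6 : D.v * (D.ρ (D.κ c'))⁻¹ = (D.ρ (D.κ c'))⁻¹ * c' := by
      rw [eq_inv_mul_iff_mul_eq, ← mul_assoc, h5, mul_inv_cancel_right]
    have h7 : c' * D.ρ σ = D.ρ σ * c := by rw [hc', inv_mul_cancel_right]
    calc (D.ρ (D.κ c'))⁻¹ * D.ρ σ * D.ρ (D.κ c) * D.v
        = (D.ρ (D.κ c'))⁻¹ * D.ρ σ * (D.ρ (D.κ c) * D.v) := by rw [mul_assoc]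
      _ = (D.ρ (D.κ c'))⁻¹ * (D.ρ σ * c) * D.ρ (D.κ c) := by rw [h4]; simp only [mul_assoc]
      _ = (D.ρ (D.κ c'))⁻¹ * c' * D.ρ σ * D.ρ (D.κ c) := by rw [← h7]; simp only [mul_assoc]
      _ = D.v * ((D.ρ (D.κ c'))⁻¹ * D.ρ σ * D.ρ (D.κ c)) := by rw [← h6]; simp only [mul_assoc]
  have h8 : ((D.κ c') * ((D.κ c')⁻¹ * σ * D.κ c)) t = σ (D.κ c t) := by
    rw [mul_assoc, mul_inv_cancel_left]; rfl
  rw [← h8, AlgEquiv.mul_apply]
  rcases ht.2 _ h3 with h9 | h9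
  · left; rw [h9]
  · right; rw [h9, map_neg]

/-- the twisted map -/
noncomputable def pf (D : Tw K Ω G) (t : Ω) (ht : D.Ok t) :
    (Ω ≃ₐ[K] Ω) →* Function.End (Fin n) := by
  classical
  exact
  { toFun := fun σ x => if σ (D.κ (D.V x) t) = D.κ (D.ρ σ * D.V x * (D.ρ σ)⁻¹) t
      then (D.ρ σ).1 x else (D.ρ σ).1 ((D.V x).1 x)
    map_one' := by
      funext x
      simp
      rfl
    map_mul' := by
      intro σ τ
      funext x
      show (if (σ * τ) (D.κ (D.V x) t) = D.κ (D.ρ (σ * τ) * D.V x * (D.ρ (σ * τ))⁻¹) t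
        then (D.ρ (σ * τ)).1 x else (D.ρ (σ * τ)).1 ((D.V x).1 x)) =
        (fun x => if σ (D.κ (D.V x) t) = D.κ (D.ρ σ * D.V x * (D.ρ σ)⁻¹) t
          then (D.ρ σ).1 x else (D.ρ σ).1 ((D.V x).1 x))
        (if τ (D.κ (D.V x) t) = D.κ (D.ρ τ * D.V x * (D.ρ τ)⁻¹) t
          then (D.ρ τ).1 x else (D.ρ τ).1 ((D.V x).1 x))
      have hx := D.hV1 x
      have hx' := D.conj_mem hx (D.ρ τ)
      have e1 : D.V ((D.ρ τ).1 x) = D.ρ τ * D.V x * (D.ρ τ)⁻¹ := D.V_conj _ _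
      have e2 : D.V ((D.ρ τ).1 ((D.V x).1 x)) = D.ρ τ * D.V x * (D.ρ τ)⁻¹ := by
        rw [D.V_conj, D.V_V]
      have e3 : D.ρ (σ * τ) * D.V x * (D.ρ (σ * τ))⁻¹ =
          D.ρ σ * (D.ρ τ * D.V x * (D.ρ τ)⁻¹) * (D.ρ σ)⁻¹ := by
        rw [map_mul]; group
      have e4 : ∀ y, (D.ρ (σ * τ)).1 y = (D.ρ σ).1 ((D.ρ τ).1 y) := by
        intro y; rw [map_mul]; rfl
      have hne := T_ne (D := D) ht (D.κ (D.ρ σ * (D.ρ τ * D.V x * (D.ρ τ)⁻¹) * (D.ρ σ)⁻¹))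
      have hne' := T_ne (D := D) ht (D.κ (D.ρ τ * D.V x * (D.ρ τ)⁻¹))
      have e5 : ∀ y, (D.ρ τ * D.V x * (D.ρ τ)⁻¹).1 ((D.ρ τ).1 y) = (D.ρ τ).1 ((D.V x).1 y) := by
        intro y
        show (D.ρ τ).1 ((D.V x).1 (((D.ρ τ).1).symm ((D.ρ τ).1 y))) = _
        rw [Equiv.symm_apply_apply]
      rw [AlgEquiv.mul_apply, e3, e4, e4]
      rcases T_sign ht τ hx with h1 | h1 <;> rcases T_sign ht σ hx' with h2 | h2
      · simp only [h1, if_true, e1, h2]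
      · simp only [h1, if_true, e1, h2, if_neg hne, e5]
      · simp only [h1, if_neg hne', e2, map_neg, h2, if_neg hne, if_true]
      · simp only [h1, if_neg hne', e2, map_neg, h2, neg_neg, if_true, if_neg hne, e5, D.VV_x] }

/-- the twisted homomorphism -/
noncomputable def ps (D : Tw K Ω G) (t : Ω) (ht : D.Ok t) : (Ω ≃ₐ[K] Ω) →* Equiv.Perm (Fin n) :=
  (pf D t ht).toHomPerm

theorem ps_pos {σ : Ω ≃ₐ[K] Ω} {x : Fin n}
    (h : σ (D.κ (D.V x) t) = D.κ (D.ρ σ * D.V x * (D.ρ σ)⁻¹) t) :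
    ps D t ht σ x = (D.ρ σ).1 x := if_pos h

theorem ps_neg {σ : Ω ≃ₐ[K] Ω} {x : Fin n}
    (h : σ (D.κ (D.V x) t) ≠ D.κ (D.ρ σ * D.V x * (D.ρ σ)⁻¹) t) :
    ps D t ht σ x = (D.ρ σ).1 ((D.V x).1 x) := if_neg h

end

end Tw

end Pool.Agent.H96S.CI
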