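import Pool.Agent.H96S.CI.H
import Pool.Agent.H96S.CI.C

/-!
# Range, stabilizers and kernels of the twisted homomorphisms
-/

set_option autoImplicit false
set_option linter.unusedSectionVars false

open IntermediateField

namespace Pool.Agent.H96S.CI

theorem nrm_mem {K Ω : Type} [Field K] [Field Ω] [Algebra K Ω] [Normal K Ω]
    (M : IntermediateField K Ω) [Normal K M]
    (τ : Ω ≃ₐ[K] Ω) {y : Ω} (hy : y ∈ M) : τ y ∈ M := by
  have h := (IntermediateField.normal_iff_forall_map_le' (K := M)).1 inferInstance τ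
  exact h ⟨y, hy, rfl⟩

namespace Tw

section

variable {K Ω : Type} [Field K] [Field Ω] [Algebra K Ω] [CharZero Ω] {n : ℕ}
  {G : Subgroup (Equiv.Perm (Fin n))} {D : Tw K Ω G}

theorem uS (D : Tw K Ω G) (R : Subgroup (Equiv.Perm (Fin n)))
    (hR : ∀ c : G, IsConj D.v c → c.1 ∈ R) (S : Set G) :
    ∃ u ∈ R, ∀ x, (D.V x ∈ S → u x = (D.V x).1 x) ∧ (D.V x ∉ S → u x = x) := by
  classical
  have hfin : Finite G := inferInstance
  have hSf : S.Finite := Set.toFinite S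
  induction S, hSf using Set.Finite.induction_on with
  | empty => exact ⟨1, R.one_mem, fun x => ⟨fun h => absurd h (Set.notMem_empty _), fun _ => rfl⟩⟩
  | @insert c S hc _ ih =>
    obtain ⟨u, hu, hux⟩ := ih
    by_cases hcv : IsConj D.v c
    · refine ⟨c.1 * u, R.mul_mem (hR c hcv) hu, fun x => ⟨?_, ?_⟩⟩
      · intro hx
        show c.1 (u x) = _
        rcases hx with hx | hx
        · have : D.V x ∉ S := by rw [hx]; exact hc
          rw [(hux x).2 this, hx]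
        · rw [(hux x).1 hx]
          by_contra hne
          have h1 := D.hVu c _ hcv hne
          rw [D.V_V] at h1
          exact hc (h1 ▸ hx)
      · intro hx
        show c.1 (u x) = _
        rw [(hux x).2 (fun h => hx (Or.inr h))]
        by_contra hne
        exact hx (Or.inl (D.hVu c _ hcv hne).symm)
    · refine ⟨u, hu, fun x => ⟨?_, ?_⟩⟩
      · intro hx
        rcases hx with hx | hx
        · exact absurd (hx ▸ D.hV1 x) hcv
        · exact (hux x).1 hx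
      · intro hx
        exact (hux x).2 (fun h => hx (Or.inr h))

variable {t : Ω} (ht : D.Ok t)

theorem ps_eq_mul (R : Subgroup (Equiv.Perm (Fin n)))
    (hR : ∀ c : G, IsConj D.v c → c.1 ∈ R) (σ : Ω ≃ₐ[K] Ω) :
    ∃ u ∈ R, ps D t ht σ = (D.ρ σ).1 * u := by
  obtain ⟨u, hu, hux⟩ := D.uS R hR {c | σ (D.κ c t) ≠ D.κ (D.ρ σ * c * (D.ρ σ)⁻¹) t}
  refine ⟨u, hu, ?_⟩
  ext1 x
  show _ = (D.ρ σ).1 (u x)
  by_cases h : σ (D.κ (D.V x) t) = D.κ (D.ρ σ * D.V x * (D.ρ σ)⁻¹) t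
  · rw [ps_pos ht h, (hux x).2 (fun h' => h' h)]
  · rw [ps_neg ht h, (hux x).1 h]

theorem ps_mem (σ : Ω ≃ₐ[K] Ω) : ps D t ht σ ∈ G := by
  obtain ⟨u, hu, h⟩ := ps_eq_mul ht G (fun c _ => c.2) σ
  rw [h]
  exact G.mul_mem (D.ρ σ).2 hu

/-- the conjugates of `t` are independent over the kernel of `ρ` -/
def Good (D : Tw K Ω G) (t : Ω) : Prop :=
  ∃ σ : Ω ≃ₐ[K] Ω, D.ρ σ = 1 ∧ σ t = -t ∧ ∀ c, IsConj D.v c → c ≠ D.v → σ (D.κ c t) = D.κ c t

theorem ps_v (hg : Good D t) : ∃ σ, ps D t ht σ = D.v.1 := by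
  obtain ⟨σ, h1, h2, h3⟩ := hg
  refine ⟨σ, ?_⟩
  have hne := T_ne (D := D) ht 1
  ext1 x
  by_cases hx : D.V x = D.v
  · rw [ps_neg]
    · rw [h1, hx]; rfl
    · rw [h1, hx, one_mul, inv_one, mul_one, D.hκv, AlgEquiv.one_apply, h2]
      exact hne
  · rw [ps_pos]
    · rw [h1]
      by_contra hcon
      exact hx (D.hVu D.v x (IsConj.refl _) (fun h => hcon h.symm)).symm
    · rw [h1, one_mul, inv_one, mul_one]
      exact h3 _ (D.hV1 x) hx

theorem ps_range (hg : Good D t) : (ps D t ht).range = G := by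
  apply le_antisymm
  · rintro _ ⟨σ, rfl⟩
    exact ps_mem ht σ
  · have hv : D.v.1 ∈ (ps D t ht).range := ps_v ht hg
    have hall : ∀ c : G, IsConj D.v c → c.1 ∈ (ps D t ht).range := by
      intro c hc
      obtain ⟨g, rfl⟩ := isConj_iff.1 hc
      obtain ⟨σ, rfl⟩ := D.hρ g
      obtain ⟨u, hu, h⟩ := ps_eq_mul ht G (fun c _ => c.2) σ
      obtain ⟨u', hu', hux⟩ := D.uS G (fun c _ => c.2)
        {c | σ (D.κ c t) ≠ D.κ (D.ρ σ * c * (D.ρ σ)⁻¹) t}
      have h' : ps D t ht σ = (D.ρ σ).1 * u' := by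
        ext1 x
        show _ = (D.ρ σ).1 (u' x)
        by_cases h : σ (D.κ (D.V x) t) = D.κ (D.ρ σ * D.V x * (D.ρ σ)⁻¹) t
        · rw [ps_pos ht h, (hux x).2 (fun h' => h' h)]
        · rw [ps_neg ht h, (hux x).1 h]
      have hcomm : u' * D.v.1 = D.v.1 * u' := by
        ext1 x
        show u' (D.v.1 x) = D.v.1 (u' x)
        by_cases hx : D.V x = D.v
        · have h5 : D.V (D.v.1 x) = D.v := by
            have := D.V_V x
            rw [hx] at this
            exact this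
          by_cases hS : D.v ∈ {c | σ (D.κ c t) ≠ D.κ (D.ρ σ * c * (D.ρ σ)⁻¹) t}
          · rw [(hux _).1 (by rw [h5]; exact hS), (hux x).1 (by rw [hx]; exact hS), h5, hx]
          · rw [(hux _).2 (by rw [h5]; exact hS), (hux x).2 (by rw [hx]; exact hS)]
        · have h5 : ∀ y, D.V y = D.V x → D.v.1 y = y := by
            intro y hy
            by_contra hcon
            exact hx ((hy.symm.trans (D.hVu D.v y (IsConj.refl _) hcon).symm))
          rw [h5 x rfl]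
          symm
          apply h5
          by_cases hS : D.V x ∈ {c | σ (D.κ c t) ≠ D.κ (D.ρ σ * c * (D.ρ σ)⁻¹) t}
          · rw [(hux x).1 hS, D.V_V]
          · rw [(hux x).2 hS]
      have h6 : ps D t ht σ * D.v.1 * (ps D t ht σ)⁻¹ = (D.ρ σ).1 * D.v.1 * ((D.ρ σ).1)⁻¹ := by
        rw [h', mul_inv_rev, mul_assoc (D.ρ σ).1 u', hcomm]
        group
      have h7 : ps D t ht σ * D.v.1 * (ps D t ht σ)⁻¹ ∈ (ps D t ht).range :=
        Subgroup.mul_mem _ (Subgroup.mul_mem _ ⟨σ, rfl⟩ hv) (Subgroup.inv_mem _ ⟨σ, rfl⟩)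
      rw [h6] at h7
      exact h7
    intro g hg'
    obtain ⟨σ, hσ⟩ := D.hρ ⟨g, hg'⟩
    obtain ⟨u, hu, h⟩ := ps_eq_mul ht _ hall σ
    have h8 : g = ps D t ht σ * u⁻¹ := by
      rw [h, hσ]
      group
    rw [h8]
    exact Subgroup.mul_mem _ ⟨σ, rfl⟩ (Subgroup.inv_mem _ hu)

/-- stabilizers -/
theorem ps_stab {σ : Ω ≃ₐ[K] Ω} (hσ : D.ρ σ = 1) {x : Fin n} (hx : D.V x = D.v) :
    ps D t ht σ x = x ↔ σ t = t := by
  constructor
  · intro h
    by_contra hne
    rw [ps_neg] at h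
    · rw [hσ] at h
      exact D.hV2 x h
    · rw [hσ, hx, one_mul, inv_one, mul_one, D.hκv, AlgEquiv.one_apply]
      exact hne
  · intro h
    rw [ps_pos]
    · rw [hσ]; rfl
    · rw [hσ, hx, one_mul, inv_one, mul_one, D.hκv, AlgEquiv.one_apply]
      exact h

theorem ps_one {σ : Ω ≃ₐ[K] Ω} (hσ : D.ρ σ = 1) (h : ∀ c, σ (D.κ c t) = D.κ c t) :
    ps D t ht σ = 1 := by
  ext1 x
  rw [ps_pos]
  · rw [hσ]; rfl
  · rw [hσ, one_mul, inv_one, mul_one]
    exact h _

end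

end Tw

end Pool.Agent.H96S.CI
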