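import Pool.Agent.H96S.CI.I

/-!
# The field of the centralizer, independence, fibres
-/

set_option autoImplicit false
set_option linter.unusedSectionVars false

open IntermediateField

namespace Pool.Agent.H96S.CI

namespace Tw

section

variable {K Ω : Type} [Field K] [Field Ω] [Algebra K Ω] [IsGalois K Ω] [CharZero Ω] {n : ℕ}
  {G : Subgroup (Equiv.Perm (Fin n))} (D : Tw K Ω G)

/-- the subgroup of the `σ` commuting with `v` -/
def U : Subgroup (Ω ≃ₐ[K] Ω) := (Subgroup.centralizer {D.v}).comap D.ρ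

theorem mem_U (σ : Ω ≃ₐ[K] Ω) : σ ∈ D.U ↔ D.ρ σ * D.v = D.v * D.ρ σ := by
  unfold U
  rw [Subgroup.mem_comap, Subgroup.mem_centralizer_iff]
  constructor
  · intro h
    exact (h D.v rfl).symm
  · intro h g hg
    rw [Set.mem_singleton_iff.1 hg, h]

/-- its fixed field -/
def F : IntermediateField K Ω := fixedField D.U

variable {D} {L : IntermediateField K Ω} (hL : ∀ σ, σ ∈ L.fixingSubgroup ↔ D.ρ σ = 1)
include hL

theorem fixL_le_U : L.fixingSubgroup ≤ D.U := by
  intro σ hσ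
  rw [mem_U, (hL σ).1 hσ, one_mul, mul_one]

theorem fix_F [FiniteDimensional K L] : D.F.fixingSubgroup = D.U := by
  have ho : IsOpen (D.U : Set (Ω ≃ₐ[K] Ω)) :=
    Subgroup.isOpen_mono (fixL_le_U hL) (fixingSubgroup_isOpen L)
  have hc : IsClosed (D.U : Set (Ω ≃ₐ[K] Ω)) := Subgroup.isClosed_of_isOpen _ ho
  exact InfiniteGalois.fixingSubgroup_fixedField ⟨D.U, hc⟩

theorem F_le : D.F ≤ L := by
  have h2 : D.F ≤ fixedField L.fixingSubgroup := by
    intro x hx
    unfold F at hx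
    rw [mem_fixedField_iff] at hx ⊢
    exact fun f hf => hx f (fixL_le_U hL hf)
  rwa [InfiniteGalois.fixedField_fixingSubgroup] at h2

omit hL in
theorem ok_of_sq {t : Ω} (ht0 : t ≠ 0) (ht : t ^ 2 ∈ D.F) : D.Ok t := by
  refine ⟨ht0, fun σ hσ => ?_⟩
  unfold F at ht
  rw [mem_fixedField_iff] at ht
  have h1 := ht σ ((D.mem_U σ).2 hσ)
  rw [map_pow] at h1
  exact sq_eq_sq_iff_eq_or_eq_neg.1 h1

theorem ker_ex {t : Ω} (ht : D.Ok t) [FiniteDimensional K L] :
    ∃ N : IntermediateField K Ω, FiniteDimensional K N ∧ N.fixingSubgroup ≤ (ps D t ht).ker := by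
  have h1 : FiniteDimensional K (adjoin K {t}) :=
    adjoin.finiteDimensional (Algebra.IsIntegral.isIntegral t)
  let N := normalClosure K (L ⊔ adjoin K {t} : IntermediateField K Ω) Ω
  have hNf : FiniteDimensional K N := normalClosure.is_finiteDimensional K _ Ω
  have hNn : Normal K N := normalClosure.normal K _ Ω
  have hle : L ⊔ adjoin K {t} ≤ N := le_normalClosure _
  refine ⟨N, hNf, ?_⟩
  intro σ hσ
  rw [MonoidHom.mem_ker]
  have h2 : ∀ x ∈ N, σ x = x := (IntermediateField.mem_fixingSubgroup_iff _ _).1 hσ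
  apply ps_one ht
  · rw [← hL, IntermediateField.mem_fixingSubgroup_iff]
    exact fun x hx => h2 x (hle (le_sup_left (a := L) hx))
  · intro c
    exact h2 _ (nrm_mem N _ (hle (le_sup_right (a := L) (mem_adjoin_simple_self K t))))

theorem FE_le_t {t : Ω} (ht : D.Ok t) {x₀ : Fin n} (hx₀ : D.V x₀ = D.v) :
    FE (ps D t ht) x₀ ≤ L ⊔ adjoin K {t} := by
  have h : (L ⊔ adjoin K {t}).fixingSubgroup ≤ St (ps D t ht) x₀ := by
    intro σ hσ
    have h1 : ∀ x ∈ L ⊔ adjoin K {t}, σ x = x :=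
      (IntermediateField.mem_fixingSubgroup_iff _ _).1 hσ
    rw [mem_St, ps_stab ht _ hx₀]
    · exact h1 t (le_sup_right (a := L) (mem_adjoin_simple_self K t))
    · rw [← hL, IntermediateField.mem_fixingSubgroup_iff]
      exact fun x hx => h1 x (le_sup_left (a := L) hx)
  have h2 : FE (ps D t ht) x₀ ≤ fixedField (L ⊔ adjoin K {t}).fixingSubgroup := by
    intro x hx
    unfold FE at hx
    rw [mem_fixedField_iff] at hx ⊢
    exact fun f hf => hx f (h hf)
  rwa [InfiniteGalois.fixedField_fixingSubgroup] at h2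

theorem FE_eq [FiniteDimensional K L] {t t' : Ω} (ht : D.Ok t) (ht' : D.Ok t') {x₀ : Fin n}
    (hx₀ : D.V x₀ = D.v) (h : FE (ps D t ht) x₀ = FE (ps D t' ht') x₀) : t * t' ∈ L := by
  obtain ⟨N, hN1, hN2⟩ := ker_ex hL ht
  obtain ⟨N', hN1', hN2'⟩ := ker_ex hL ht'
  have h1 : St (ps D t ht) x₀ = St (ps D t' ht') x₀ := by
    rw [← fix_FE hN2, ← fix_FE hN2', h]
  rw [← InfiniteGalois.fixedField_fixingSubgroup L, mem_fixedField_iff]
  intro σ hσ
  have h2 := (hL σ).1 hσ
  have h3 : σ t = t ↔ σ t' = t' := by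
    rw [← ps_stab ht h2 hx₀, ← ps_stab ht' h2 hx₀, ← mem_St, ← mem_St, h1]
  have h4 := ht.2 σ (by rw [h2, one_mul, mul_one])
  have h5 := ht'.2 σ (by rw [h2, one_mul, mul_one])
  rw [map_mul]
  by_cases h6 : σ t = t
  · rw [h6, h3.1 h6]
  · rw [h4.resolve_left h6, h5.resolve_left (fun h => h6 (h3.2 h)), neg_mul_neg]

theorem Sx_inj' [FiniteDimensional K L] {x y : Ω} (hx : x ∈ L) (hy : y ∈ L) (hx2 : D.Ok x)
    (hy2 : D.Ok y) (h : Sx D.ρ x = Sx D.ρ y) : x * y ∈ D.F := by
  unfold F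
  rw [mem_fixedField_iff]
  intro σ hσ
  have hσ' := (D.mem_U σ).1 hσ
  have h1 := mem_Sx hL hx σ
  have h2 := mem_Sx hL hy σ
  rw [h] at h1
  have h3 : σ x = x ↔ σ y = y := h1.symm.trans h2
  rw [map_mul]
  by_cases h4 : σ x = x
  · rw [h4, h3.1 h4]
  · have h5 : σ y ≠ y := fun h => h4 (h3.2 h)
    rw [(hx2.2 σ hσ').resolve_left h4, (hy2.2 σ hσ').resolve_left h5, neg_mul_neg]

end

section kummer

variable {K Ω : Type} [Field K] [Field Ω] [Algebra K Ω] [IsGalois K Ω] [CharZero Ω] {n : ℕ}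
  {G : Subgroup (Equiv.Perm (Fin n))} {D : Tw K Ω G}

/-- the sign -/
noncomputable def eps (Ω : Type) [Field Ω] (x : ZMod 2) : Ω := if x = 0 then 1 else -1

theorem z2 (y : ZMod 2) : y = 0 ∨ y = 1 := by
  revert y
  decide

theorem eps_add (x y : ZMod 2) : eps Ω (x + y) = eps Ω x * eps Ω y := by
  unfold eps
  have h11 : (1 : ZMod 2) + 1 = 0 := by decide
  rcases z2 x with rfl | rfl <;> rcases z2 y with rfl | rfl <;> simp [h11]

theorem eps_sum {ι : Type} (S : Finset ι) (s : ι → ZMod 2) :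
    eps Ω (∑ i ∈ S, s i) = ∏ i ∈ S, eps Ω (s i) := by
  classical
  induction S using Finset.induction_on with
  | empty => simp [eps]
  | insert a S ha ih => rw [Finset.sum_insert ha, Finset.prod_insert ha, eps_add, ih]

theorem eps_fix (σ : Ω ≃ₐ[K] Ω) (x : ZMod 2) : σ (eps Ω x) = eps Ω x := by
  unfold eps
  split_ifs <;> simp

theorem good_of {L : IntermediateField K Ω} (hL : ∀ σ, σ ∈ L.fixingSubgroup ↔ D.ρ σ = 1)
    {t : Ω} (ht : D.Ok t)
    (h : ∀ S : Finset G, S.Nonempty → (∀ c ∈ S, IsConj D.v c) → ∏ c ∈ S, D.κ c t ∉ L) :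
    Good D t := by
  classical
  have : Fintype G := Fintype.ofFinite G
  let A : Submodule (ZMod 2) (G → ZMod 2) :=
    { carrier := {s | ∃ σ : Ω ≃ₐ[K] Ω, D.ρ σ = 1 ∧
        ∀ c, IsConj D.v c → σ (D.κ c t) = eps Ω (s c) * D.κ c t}
      zero_mem' := ⟨1, map_one _, fun c _ => by simp [eps]⟩
      add_mem' := by
        rintro s s' ⟨σ, h1, h2⟩ ⟨σ', h1', h2'⟩
        refine ⟨σ * σ', by rw [map_mul, h1, h1', mul_one], fun c hc => ?_⟩
        rw [AlgEquiv.mul_apply, h2' c hc, map_mul, eps_fix, h2 c hc, Pi.add_apply, eps_add]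
        ring
      smul_mem' := by
        rintro a s ⟨σ, h1, h2⟩
        rcases z2 a with rfl | rfl
        · rw [zero_smul]
          exact ⟨1, map_one _, fun c _ => by simp [eps]⟩
        · rw [one_smul]
          exact ⟨σ, h1, h2⟩ }
  have hδ : (fun j => if D.v = j then (1 : ZMod 2) else 0) ∈ A := by
    by_contra hcon
    obtain ⟨f, hf1, hf2⟩ := Submodule.exists_le_ker_of_notMem hcon
    let S : Finset G := Finset.univ.filter
      (fun c => f (fun j => if c = j then (1 : ZMod 2) else 0) ≠ 0)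
    have hS1 : S.Nonempty := ⟨D.v, by
      rw [Finset.mem_filter]
      exact ⟨Finset.mem_univ _, hf1⟩⟩
    have hS2 : ∀ c ∈ S, IsConj D.v c := by
      intro c hc
      by_contra hnc
      rw [Finset.mem_filter] at hc
      apply hc.2
      have : (fun j => if c = j then (1 : ZMod 2) else 0) ∈ A := by
        refine ⟨1, map_one _, fun c' hc' => ?_⟩
        have hne : c ≠ c' := by rintro rfl; exact hnc hc'
        simp [eps, hne]
      exact hf2 this
    apply h S hS1 hS2
    rw [← InfiniteGalois.fixedField_fixingSubgroup L, mem_fixedField_iff]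
    intro σ hσ
    have hσ1 := (hL σ).1 hσ
    let s : G → ZMod 2 := fun c => if σ (D.κ c t) = D.κ c t then 0 else 1
    have hs : ∀ c, IsConj D.v c → σ (D.κ c t) = eps Ω (s c) * D.κ c t := by
      intro c hc
      have h1 := T_sign ht σ hc
      rw [hσ1, one_mul, inv_one, mul_one] at h1
      show _ = eps Ω (if σ (D.κ c t) = D.κ c t then 0 else 1) * _
      by_cases h2 : σ (D.κ c t) = D.κ c t
      · rw [if_pos h2, h2]; simp [eps]
      · rw [if_neg h2, h1.resolve_left h2]; simp [eps]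
    have hsA : s ∈ A := ⟨σ, hσ1, hs⟩
    have hfs : f s = 0 := hf2 hsA
    rw [LinearMap.pi_apply_eq_sum_univ] at hfs
    have hsum : ∑ c ∈ S, s c = 0 := by
      rw [← hfs, Finset.sum_filter]
      refine Finset.sum_congr rfl fun c _ => ?_
      rcases z2 (f (fun j => if c = j then (1 : ZMod 2) else 0)) with h1 | h1
      · rw [h1]; simp
      · rw [h1]; simp
    rw [map_prod, Finset.prod_congr rfl (fun c hc => hs c (hS2 c hc)), Finset.prod_mul_distrib,
      ← eps_sum, hsum]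
    simp [eps]
  obtain ⟨σ, h1, h2⟩ := hδ
  refine ⟨σ, h1, ?_, ?_⟩
  · have h3 := h2 D.v (IsConj.refl _)
    rw [D.hκv, AlgEquiv.one_apply] at h3
    rw [h3]
    simp [eps]
  · intro c hc hne
    rw [h2 c hc]
    simp [eps, hne.symm]

end kummer

end Tw

end Pool.Agent.H96S.CI
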