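import Pool.Agent.H96S.CI.J
import Pool.Agent.TH444.ML.Done

/-!
# Elements with independent conjugates
-/

set_option autoImplicit false
set_option linter.unusedSectionVars false

open NumberField IntermediateField Pool.Agent.TH444.ML Filter Topology

namespace Pool.Agent.H96S.CI

section

variable {K Ω : Type} [Field K] [NumberField K] [Field Ω] [Algebra K Ω] [IsAlgClosure K Ω]

theorem ex_mid (M : IntermediateField K Ω) [FiniteDimensional K M] [IsGalois K M] :
    ∃ L' : IntermediateField K Ω, Mid K Ω (M ≃ₐ[K] M) L' M := by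
  have hM : M ∈ Gal K Ω (M ≃ₐ[K] M) := ⟨inferInstance, inferInstance, ⟨MulEquiv.refl _⟩⟩
  obtain ⟨c, hc, hlim⟩ := lim_SM (quadLim rest) quadPos quadUnif badSmall M hM 1 one_pos
  have h1 := (hlim.eventually (lt_mem_nhds hc)).and (eventually_gt_atTop (0 : ℝ))
  obtain ⟨X, h2, h3⟩ := h1.exists
  have h4 : (Set.ncard (SM (M ≃ₐ[K] M) M (X * 1)) : ℝ) ≠ 0 := by
    intro h
    rw [h, zero_div] at h2
    exact lt_irrefl _ h2
  have h5 : Set.ncard (SM (M ≃ₐ[K] M) M (X * 1)) ≠ 0 := by exact_mod_cast h4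
  obtain ⟨L', hL'⟩ := Set.nonempty_of_ncard_ne_zero h5
  exact ⟨L', hL'.1⟩

theorem star (M : IntermediateField K Ω) [FiniteDimensional K M] [IsGalois K M]
    (hM : 2 ≤ Module.finrank K M) :
    ∃ t : Ω, t ≠ 0 ∧ t ^ 2 ∈ M ∧ ∃ σ : Ω ≃ₐ[K] Ω, σ ∈ M.fixingSubgroup ∧ σ t = -t ∧
      ∀ τ : Ω ≃ₐ[K] Ω, τ ∉ M.fixingSubgroup → σ (τ t) = τ t := by
  classical
  have hG : IsGalois K Ω := IsAlgClosure.isGalois K Ω
  have hcard : Nat.card (M ≃ₐ[K] M) = Module.finrank K M := IsGalois.card_aut_eq_finrank K M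
  obtain ⟨L', hmid⟩ := ex_mid M
  obtain ⟨h1, e, he⟩ := (Pool.Agent.TH365.J3099.wrIff K Ω (M ≃ₐ[K] M) L').2 ⟨M, hmid⟩
  obtain ⟨-, hle, hfd, h2, -⟩ := hmid
  -- the generator
  have hpos : 0 < Module.finrank K M := Module.finrank_pos
  have hfree : Module.Free M (extendScalars hle) := Module.Free.of_divisionRing M _
  have hfin : Module.finrank M (extendScalars hle) = 2 := by
    have h3 : Module.finrank K L' = Module.finrank K M *
        Module.finrank M (extendScalars hle) :=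
      (Module.finrank_mul_finrank K M (extendScalars hle)).symm
    rw [h2] at h3
    exact (Nat.eq_of_mul_eq_mul_left hpos (by rw [← h3]; ring))
  obtain ⟨a, t, htL0, ha, hta⟩ := Pool.Agent.TH914.J3087.exists_sqrt (extendScalars hle) hfin
  have htL : t ∈ L' := htL0
  have hadj : extendScalars hle = adjoin M {t} := by
    have hfd' : FiniteDimensional M (extendScalars hle) :=
      FiniteDimensional.of_finrank_pos (by omega)
    symm
    apply IntermediateField.eq_of_le_of_finrank_eq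
    · rw [adjoin_simple_le_iff]; exact htL0
    · rw [hfin]
      exact Pool.Agent.TH914.J3087.finrank_two ha hta
  have ht0 : t ≠ 0 := by
    rintro rfl
    exact hta 0 (map_zero _)
  -- the embeddings
  let φ : (Ω ≃ₐ[K] Ω) → (L' →ₐ[K] Ω) := fun τ => τ.toAlgHom.comp L'.val
  have hφ : ∀ τ σ : Ω ≃ₐ[K] Ω, φ (σ * τ) = σ.toAlgHom.comp (φ τ) := fun τ σ => rfl
  have hφeq : ∀ τ σ : Ω ≃ₐ[K] Ω, φ τ = φ σ → ∀ x ∈ L', τ x = σ x := by
    intro τ σ h x hx
    exact congrArg (fun f : L' →ₐ[K] Ω => f ⟨x, hx⟩) h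
  have hlift : ∀ f : L' →ₐ[K] Ω, ∃ τ, φ τ = f := by
    intro f
    let ε : L' ≃ₐ[K] f.fieldRange := AlgEquiv.ofInjectiveField f
    refine ⟨ε.liftNormal Ω, ?_⟩
    ext x
    exact AlgEquiv.liftNormal_commutes ε Ω x
  let h₀ := (e (φ 1)).1
  obtain ⟨σ, hσ⟩ := (he (Equiv.swap (h₀, false) (h₀, true))).1 ⟨1, fun x => by
    rw [one_mul]
    by_cases h3 : x = (h₀, false)
    · rw [h3, Equiv.swap_apply_left]
    · by_cases h4 : x = (h₀, true)
      · rw [h4, Equiv.swap_apply_right]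
      · rw [Equiv.swap_apply_of_ne_of_ne h3 h4]⟩
  have hfixout : ∀ τ : Ω ≃ₐ[K] Ω, (e (φ τ)).1 ≠ h₀ → ∀ x ∈ L', σ (τ x) = τ x := by
    intro τ hτ x hx
    have h3 := hσ (φ τ)
    rw [Equiv.swap_apply_of_ne_of_ne (by rintro h; exact hτ (by rw [h]))
      (by rintro h; exact hτ (by rw [h]))] at h3
    exact congrArg (fun f : L' →ₐ[K] Ω => f ⟨x, hx⟩) (e.injective h3)
  -- `σ` fixes `M`
  have hnt : ∃ g : (M ≃ₐ[K] M), g ≠ h₀ := by
    by_contra hcon
    push Not at hcon
    have : Subsingleton (M ≃ₐ[K] M) := ⟨fun x y => (hcon x).trans (hcon y).symm⟩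
    have := Finite.card_le_one_iff_subsingleton.2 this
    omega
  obtain ⟨g, hg⟩ := hnt
  obtain ⟨τ₁, hτ₁⟩ := hlift (e.symm (g, false))
  have hτ₁' : (e (φ τ₁)).1 ≠ h₀ := by
    rw [hτ₁, Equiv.apply_symm_apply]; exact hg
  have hσM : σ ∈ M.fixingSubgroup := by
    rw [IntermediateField.mem_fixingSubgroup_iff]
    intro x hx
    have h3 : τ₁⁻¹ x ∈ M := nrm_mem M _ hx
    have h4 := hfixout τ₁ hτ₁' _ (hle h3)
    have h5 : τ₁ (τ₁⁻¹ x) = x := AlgEquiv.apply_symm_apply τ₁ x
    rw [h5] at h4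
    exact h4
  have hfixM : ∀ x ∈ M, σ x = x := (IntermediateField.mem_fixingSubgroup_iff _ _).1 hσM
  -- `σ` moves `t`
  have hmove : φ σ ≠ φ 1 := by
    intro h3
    have h4 := hσ (φ 1)
    have h5 : σ.toAlgHom.comp (φ 1) = φ σ := rfl
    rw [h5, h3] at h4
    have h6 : e (φ 1) = (h₀, false) ∨ e (φ 1) = (h₀, true) := by
      rcases hb : (e (φ 1)).2 with _ | _
      · left; exact Prod.ext rfl hb
      · right; exact Prod.ext rfl hb
    rcases h6 with h6 | h6
    · rw [h6, Equiv.swap_apply_left] at h4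
      simp at h4
    · rw [h6, Equiv.swap_apply_right] at h4
      simp at h4
  have hmem2 : t ^ 2 ∈ M := by
    rw [ha]
    exact a.2
  have hpm : σ t = t ∨ σ t = -t := by
    have h3 : (σ t) ^ 2 = t ^ 2 := by rw [← map_pow, hfixM _ hmem2]
    exact sq_eq_sq_iff_eq_or_eq_neg.1 h3
  have hneg : σ t = -t := by
    rcases hpm with h3 | h3
    · exfalso
      apply hmove
      have h4 : L' ≤ fixedField (Subgroup.zpowers σ) := by
        have h5 : L' = restrictScalars K (adjoin M {t}) := by rw [← hadj]; rfl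
        rw [h5, restrictScalars_adjoin_eq_sup, sup_le_iff]
        constructor
        · intro x hx
          rw [mem_fixedField_iff]
          intro τ hτ
          have h6 : Subgroup.zpowers σ ≤ M.fixingSubgroup := by
            rw [Subgroup.zpowers_le]; exact hσM
          exact (IntermediateField.mem_fixingSubgroup_iff _ _).1 (h6 hτ) x hx
        · rw [adjoin_simple_le_iff, mem_fixedField_iff]
          intro τ hτ
          have h6 : Subgroup.zpowers σ ≤ (adjoin K {t}).fixingSubgroup := by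
            rw [Subgroup.zpowers_le, IntermediateField.mem_fixingSubgroup_iff]
            intro x hx
            have h7 : adjoin K {t} ≤ fixedField (Subgroup.zpowers σ) := by
              rw [adjoin_simple_le_iff, mem_fixedField_iff]
              intro τ hτ
              have h8 : Subgroup.zpowers σ ≤ MulAction.stabilizer (Ω ≃ₐ[K] Ω) t := by
                rw [Subgroup.zpowers_le]; exact h3
              exact h8 hτ
            have h9 := h7 hx
            rw [mem_fixedField_iff] at h9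
            exact h9 σ (Subgroup.mem_zpowers σ)
          exact (IntermediateField.mem_fixingSubgroup_iff _ _).1 (h6 hτ) t
            (mem_adjoin_simple_self K t)
      ext x
      have h5 := h4 x.2
      rw [mem_fixedField_iff] at h5
      exact h5 σ (Subgroup.mem_zpowers σ)
    · exact h3
  refine ⟨t, ht0, hmem2, σ, hσM, hneg, ?_⟩
  intro τ hτ
  apply hfixout τ _ t htL
  intro h3
  apply hτ
  have h4 : e (φ τ) = e (φ 1) ∨ e (φ τ) = e (φ σ) := by
    have h5 : e (φ σ) = Equiv.swap (h₀, false) (h₀, true) (e (φ 1)) := hσ (φ 1)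
    have h6 : ∀ y z : (M ≃ₐ[K] M) × Bool, y.1 = h₀ → z.1 = h₀ →
        y = z ∨ y = Equiv.swap (h₀, false) (h₀, true) z := by
      rintro ⟨y, b⟩ ⟨z, b'⟩ hy hz
      simp only at hy hz
      subst hy hz
      rcases b with _ | _ <;> rcases b' with _ | _
      · left; rfl
      · right; rw [Equiv.swap_apply_right]
      · right; rw [Equiv.swap_apply_left]
      · left; rfl
    rw [h5]
    exact h6 _ _ h3 rfl
  rw [IntermediateField.mem_fixingSubgroup_iff]
  intro x hx
  rcases h4 with h4 | h4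
  · exact hφeq _ _ (e.injective h4) x (hle hx)
  · exact (hφeq _ _ (e.injective h4) x (hle hx)).trans (hfixM x hx)

theorem star2 (M : IntermediateField K Ω) [FiniteDimensional K M] [IsGalois K M]
    (hM : 2 ≤ Module.finrank K M) :
    ∃ t : Ω, t ≠ 0 ∧ IsIntegral ℤ t ∧ t ^ 2 ∈ M ∧ ∃ σ : Ω ≃ₐ[K] Ω, σ ∈ M.fixingSubgroup ∧
      σ t = -t ∧ ∀ τ : Ω ≃ₐ[K] Ω, τ ∉ M.fixingSubgroup → σ (τ t) = τ t := by
  have hc : CharZero Ω := charZero_of_injective_algebraMap (algebraMap K Ω).injective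
  obtain ⟨t, ht0, ht2, σ, h1, h2, h3⟩ := star M hM
  have h1' : Algebra.IsAlgebraic K Ω := IsAlgClosure.isAlgebraic
  have h2' : Algebra.IsAlgebraic ℤ K := by
    have : Algebra.IsAlgebraic ℤ ℚ := IsLocalization.isAlgebraic ℚ (nonZeroDivisors ℤ)
    exact Algebra.IsAlgebraic.trans ℤ ℚ K
  have h3' : Algebra.IsAlgebraic ℤ Ω := Algebra.IsAlgebraic.trans ℤ K Ω
  obtain ⟨y, hy, h⟩ := (h3'.isAlgebraic t).exists_integral_multiple
  have hy' : (y : Ω) ≠ 0 := by exact_mod_cast hy
  have hyM : (y : Ω) ∈ M := intCast_mem M y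
  refine ⟨(y : Ω) * t, mul_ne_zero hy' ht0, by rw [← zsmul_eq_mul]; exact h, ?_, σ, h1, ?_, ?_⟩
  · rw [mul_pow]
    exact mul_mem (pow_mem hyM 2) ht2
  · rw [map_mul, map_intCast, h2, mul_neg]
  · intro τ hτ
    rw [map_mul, map_mul, map_intCast, map_intCast, h3 τ hτ]

end

end Pool.Agent.H96S.CI
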