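import Pool.Agent.H96S.CI.G3

/-!
# The wreath products `A ≀ S_m` in their natural action on `A × {1, ..., m}`
-/

set_option autoImplicit false
set_option linter.unusedSectionVars false

open Pool.Agent.TH444.ML
open Pool.Agent.H391R2 (Wr)

namespace Pool.Agent.H96S.CI

section

variable {A : Type} [Group A] {m n : ℕ}

/-- the action of `w` on `A × Fin m` -/
def wa (w : Wr A m) (y : A × Fin m) : A × Fin m := (w.left (w.right y.2) * y.1, w.right y.2)

theorem wa_mul (v w : Wr A m) (y : A × Fin m) : wa (v * w) y = wa v (wa w y) :=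
  (wrAct A m).mul_smul v w y

theorem wa_one (y : A × Fin m) : wa (1 : Wr A m) y = y := (wrAct A m).one_smul y

/-- `wa w` as a permutation -/
def waE : Wr A m →* Equiv.Perm (A × Fin m) where
  toFun w :=
    { toFun := wa w
      invFun := wa w⁻¹
      left_inv := fun y => by rw [← wa_mul, inv_mul_cancel, wa_one]
      right_inv := fun y => by rw [← wa_mul, mul_inv_cancel, wa_one] }
  map_one' := by ext1 y; exact wa_one y
  map_mul' v w := by ext1 y; exact wa_mul v w y

theorem wa_inj (w : Wr A m) (h : ∀ y, wa w y = y) : w = 1 := by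
  have h1 : w.right = 1 := by
    ext i
    have := congrArg (fun z : A × Fin m => (z.2 : ℕ)) (h (1, i))
    simpa [wa] using this
  apply SemidirectProduct.ext
  · funext i
    have h2 := congrArg Prod.fst (h (1, i))
    simp only [wa, h1, Equiv.Perm.one_apply, mul_one] at h2
    exact h2
  · exact h1

/-- the involution -/
def wc (c : A) (i : Fin m) : Wr A m := ⟨Pi.mulSingle i c, 1⟩

theorem wa_wc (c : A) (i : Fin m) (y : A × Fin m) :
    wa (wc c i) y = if y.2 = i then (c * y.1, y.2) else y := by
  unfold wa wc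
  by_cases h : y.2 = i
  · rw [if_pos h]; subst h; simp
  · rw [if_neg h]
    simp [Pi.mulSingle_eq_of_ne h]

theorem wa_conj (c : A) (hc : ∀ x, c * x = x * c) (i : Fin m) (w : Wr A m) (y : A × Fin m) :
    wa (w * wc c i * w⁻¹) y = if y.2 = w.right i then (c * y.1, y.2) else y := by
  obtain ⟨x, rfl⟩ : ∃ x, wa w x = y := ⟨wa w⁻¹ y, by rw [← wa_mul, mul_inv_cancel, wa_one]⟩
  rw [← wa_mul, inv_mul_cancel_right, wa_mul, wa_wc]
  have h1 : (wa w x).2 = w.right i ↔ x.2 = i := by
    show w.right x.2 = w.right i ↔ _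
    exact w.right.injective.eq_iff
  by_cases h : x.2 = i
  · rw [if_pos h, if_pos (h1.2 h)]
    unfold wa
    simp only
    rw [← mul_assoc, ← hc, mul_assoc]
  · rw [if_neg h, if_neg (fun h' => h (h1.1 h'))]

/-- `G` is `A ≀ S_m` acting on `A × {1, ..., m}` -/
def NatWr (A : Type) [Group A] (m : ℕ) {n : ℕ} (G : Subgroup (Equiv.Perm (Fin n))) : Prop :=
  ∃ f : Fin n ≃ A × Fin m, ∀ π : Equiv.Perm (Fin n), π ∈ G ↔ ∃ w : Wr A m, ∀ x, f (π x) = wa w (f x)

variable {G : Subgroup (Equiv.Perm (Fin n))}

theorem nat_iso (hG : NatWr A m G) : ∃ (f : Fin n ≃ A × Fin m) (e : Wr A m ≃* G),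
    ∀ w x, f ((e w).1 x) = wa w (f x) := by
  obtain ⟨f, hf⟩ := hG
  let θ₀ : Wr A m →* Equiv.Perm (Fin n) := (f.symm.permCongrHom.toMonoidHom).comp waE
  have hθ : ∀ w x, f (θ₀ w x) = wa w (f x) := by
    intro w x
    show f (f.symm (wa w (f x))) = _
    rw [Equiv.apply_symm_apply]
  have hmem : ∀ w, θ₀ w ∈ G := fun w => (hf _).2 ⟨w, hθ w⟩
  let θ : Wr A m →* G := θ₀.codRestrict G hmem
  have hinj : Function.Injective θ := by
    rw [injective_iff_map_eq_one]
    intro w hw
    apply wa_inj
    intro y
    have h1 : θ₀ w = 1 := congrArg Subtype.val hw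
    have h2 := hθ w (f.symm y)
    rw [h1, Equiv.apply_symm_apply] at h2
    rw [← h2]
    show f (f.symm y) = y
    rw [Equiv.apply_symm_apply]
  have hsurj : Function.Surjective θ := by
    rintro ⟨π, hπ⟩
    obtain ⟨w, hw⟩ := (hf π).1 hπ
    refine ⟨w, Subtype.ext ?_⟩
    ext1 x
    apply f.injective
    rw [hw]
    exact hθ w x
  exact ⟨f, MulEquiv.ofBijective θ ⟨hinj, hsurj⟩, hθ⟩

theorem nat_trans (hG : NatWr A m G) (i j : Fin n) : ∃ g ∈ G, g i = j := by
  classical
  obtain ⟨f, e, he⟩ := nat_iso hG
  let w : Wr A m := ⟨fun _ => (f j).1 * (f i).1⁻¹, Equiv.swap (f i).2 (f j).2⟩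
  refine ⟨(e w).1, (e w).2, f.injective ?_⟩
  rw [he]
  unfold wa
  simp [w]

theorem nat_dc [Finite A] (hG : NatWr A m G) (hm : 0 < m) {c : A} (hc : ∀ x, c * x = x * c)
    (hc2 : c * c = 1) (hc1 : c ≠ 1) :
    ∃ v : G, DC v ∧ v.1.support.card = Nat.card A ∧
      ∀ g ∈ G, g ≠ 1 → Nat.card A ≤ g.support.card := by
  classical
  obtain ⟨f, e, he⟩ := nat_iso hG
  have : Fintype A := Fintype.ofFinite A
  let i₀ : Fin m := ⟨0, hm⟩
  have hf2 : ∀ (w : Wr A m) x, (e w).1 x = x ↔ wa w (f x) = f x := by
    intro w x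
    rw [← he, f.injective.eq_iff]
  refine ⟨e (wc c i₀), ⟨?_, ?_, ?_⟩, ?_, ?_⟩
  · rw [← map_mul]
    have : wc c i₀ * wc c i₀ = 1 := by
      apply wa_inj
      intro y
      rw [wa_mul, wa_wc, wa_wc]
      by_cases h : y.2 = i₀
      · simp only [h, if_true]
        rw [← mul_assoc, hc2, one_mul, ← h]
      · simp only [if_neg h]
    rw [this, map_one]
  · intro h
    have h1 : wc c i₀ = 1 := e.injective (h.trans (map_one e).symm)
    have h2 := wa_wc c i₀ (1, i₀)
    rw [h1, wa_one, if_pos rfl] at h2
    have h3 := congrArg Prod.fst h2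
    simp only [mul_one] at h3
    exact hc1 h3.symm
  · intro g
    obtain ⟨w, rfl⟩ := e.surjective g
    by_cases h : w.right i₀ = i₀
    · left
      rw [← map_inv, ← map_mul, ← map_mul]
      apply Subtype.ext
      ext1 x
      apply f.injective
      rw [he, he, wa_conj c hc, h, wa_wc]
    · right
      intro x
      rw [← map_inv, ← map_mul, ← map_mul, hf2, hf2, wa_conj c hc, wa_wc]
      by_cases h1 : (f x).2 = i₀
      · right
        rw [if_neg]
        rw [h1]
        exact fun h2 => h h2.symm
      · left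
        rw [if_neg h1]
  · have h1 : (e (wc c i₀)).1.support = Finset.univ.image (fun a : A => f.symm (a, i₀)) := by
      ext x
      rw [Equiv.Perm.mem_support, Ne, hf2, wa_wc, Finset.mem_image]
      constructor
      · intro h
        by_cases h2 : (f x).2 = i₀
        · exact ⟨(f x).1, Finset.mem_univ _, by rw [← h2]; exact f.symm_apply_apply x⟩
        · rw [if_neg h2] at h
          exact absurd rfl h
      · rintro ⟨a, -, rfl⟩
        rw [Equiv.apply_symm_apply, if_pos rfl]
        intro h
        have h3 := congrArg Prod.fst h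
        simp only [mul_eq_right] at h3
        exact hc1 h3
    rw [h1, Finset.card_image_of_injective, Finset.card_univ, Nat.card_eq_fintype_card]
    intro a b hab
    have := f.symm.injective hab
    exact congrArg Prod.fst this
  · intro g hg hg1
    obtain ⟨w, hw⟩ := e.surjective ⟨g, hg⟩
    have hwg : (e w).1 = g := congrArg Subtype.val hw
    obtain ⟨i, hi⟩ : ∃ i : Fin m, ∀ a : A, wa w (a, i) ≠ (a, i) := by
      by_contra hcon
      push Not at hcon
      have h1 : ∀ i, w.right i = i := by
        intro i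
        obtain ⟨a, ha⟩ := hcon i
        exact congrArg Prod.snd ha
      have h2 : ∀ i, w.left i = 1 := by
        intro i
        obtain ⟨a, ha⟩ := hcon i
        have h3 := congrArg Prod.fst ha
        unfold wa at h3
        simp only [h1, mul_eq_right] at h3
        exact h3
      apply hg1
      have h3 : w = 1 := by
        apply wa_inj
        intro y
        unfold wa
        rw [h1, h2, one_mul]
      rw [← hwg, h3, map_one]
      rfl
    have h1 : Finset.univ.image (fun a : A => f.symm (a, i)) ⊆ g.support := by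
      intro x hx
      obtain ⟨a, -, rfl⟩ := Finset.mem_image.1 hx
      rw [Equiv.Perm.mem_support, ← hwg, Ne, hf2, Equiv.apply_symm_apply]
      exact hi a
    have h2 := Finset.card_le_card h1
    rw [Finset.card_image_of_injective, Finset.card_univ, ← Nat.card_eq_fintype_card] at h2
    · exact h2
    · intro a b hab
      have := f.symm.injective hab
      exact congrArg Prod.fst this

theorem nat_card [Finite A] (hG : NatWr A m G) : n = Nat.card A * m := by
  obtain ⟨f, -⟩ := hG
  have := Nat.card_congr f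
  rw [Nat.card_fin, Nat.card_prod, Nat.card_fin] at this
  exact this

end

end Pool.Agent.H96S.CI
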